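import Mathlib
import Pool.Agent.H335R2.Obs.Obs2
import Pool.Agent.H301R2.SSE.Forms

/-!
# Relations between linear forms in logarithms: indices, the matrix of derivations, linear algebra
-/

set_option autoImplicit false

namespace Pool.Agent.W5h65.EE.Hyp

open Module Finset
open Pool.Agent.H335R2.Obs (kSpan finrank_kSpan exists_rat_form form_cSpan finrank_orth_le)
open Pool.Agent.H301R2.SSE (Lg mem_Lg dg bs om om_alg om_ne span_K)
open Pool.Agent.H301R2.ZG (exists_dual)

section idx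

variable {n D : ℕ}

/-- index of the pair `(i,h)` -/
def pr (i : Fin n) (h : Fin D) : Fin (n * D) := finProdFinEquiv (i, h)

/-- first component -/
def f1 (q : Fin (n * D)) : Fin n := (finProdFinEquiv.symm q).1
/-- second component -/
def f2 (q : Fin (n * D)) : Fin D := (finProdFinEquiv.symm q).2

@[simp] theorem f1_pr (i : Fin n) (h : Fin D) : f1 (pr i h) = i := by simp [f1, pr]
@[simp] theorem f2_pr (i : Fin n) (h : Fin D) : f2 (pr i h) = h := by simp [f2, pr]
theorem pr_f (q : Fin (n * D)) : pr (f1 q) (f2 q) = q :=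
  finProdFinEquiv.apply_symm_apply q

theorem sum_pr {M : Type*} [AddCommMonoid M] (f : Fin (n * D) → M) :
    ∑ q, f q = ∑ i, ∑ h, f (pr i h) := by
  rw [← Fintype.sum_prod_type' (f := fun i h => f (pr i h))]
  exact (Equiv.sum_comp finProdFinEquiv f).symm

variable [NeZero D]

/-- the coefficients of the derivations -/
noncomputable def gam (om : Fin D → ℂ) (d q : Fin (n * D)) : ℂ :=
  if f1 d = f1 q then
    (if f2 q = 0 then (if f2 d = 0 then -1 / om 0 else -om (f2 d) / om 0)
      else (if f2 d = f2 q then 1 else 0)) else 0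

theorem gam_alg (om : Fin D → ℂ) (h : ∀ h, IsAlgebraic ℚ (om h)) (d q : Fin (n * D)) :
    IsAlgebraic ℚ (gam om d q) := by
  unfold gam
  split_ifs
  · exact (isAlgebraic_one.neg).mul (h 0).inv
  · exact ((h _).neg).mul (h 0).inv
  · exact isAlgebraic_one
  · exact isAlgebraic_zero
  · exact isAlgebraic_zero

theorem sum_gam (om : Fin D → ℂ) (hom : om 0 ≠ 0) (a : Fin n → ℂ) (u : Fin n → Fin D → ℂ)
    (z : Fin n → ℂ) (hz : ∀ i, z i = a i + ∑ h, om h * u i h) (q : Fin (n * D)) :
    u (f1 q) (f2 q) = (if f2 q = 0 then z (f1 q) / om 0 else 0) +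
      ∑ d, gam om d q * (if f2 d = 0 then a (f1 d) else u (f1 d) (f2 d)) := by
  rw [sum_pr]
  have h1 : ∀ i, ∑ h, gam om (pr i h) q * (if f2 (pr i h) = 0 then a (f1 (pr i h))
      else u (f1 (pr i h)) (f2 (pr i h))) = if i = f1 q then
        ∑ h, (if f2 q = 0 then (if h = 0 then -1 / om 0 else -om h / om 0)
          else (if h = f2 q then 1 else 0)) * (if h = 0 then a (f1 q) else u (f1 q) h) else 0 := by
    intro i
    by_cases hi : i = f1 q
    · rw [if_pos hi]
      apply Finset.sum_congr rfl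
      intro h _
      unfold gam
      rw [f1_pr, f2_pr, if_pos hi, hi]
    · rw [if_neg hi]
      apply Finset.sum_eq_zero
      intro h _
      unfold gam
      rw [f1_pr, if_neg hi, zero_mul]
  simp only [h1]
  rw [Finset.sum_ite_eq' Finset.univ (f1 q), if_pos (Finset.mem_univ _)]
  by_cases hq : f2 q = 0
  · simp only [hq, if_true]
    have h2 : ∀ h, (if h = 0 then -1 / om 0 else -om h / om 0) *
        (if h = 0 then a (f1 q) else u (f1 q) h) =
        (if h = 0 then (u (f1 q) 0 - a (f1 q) / om 0) else 0) - (om h * u (f1 q) h) / om 0 := by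
      intro h
      split_ifs with hh
      · rw [hh]; field_simp; ring
      · ring
    simp only [h2]
    rw [Finset.sum_sub_distrib, Finset.sum_ite_eq' Finset.univ (0 : Fin D),
      if_pos (Finset.mem_univ _), ← Finset.sum_div, hz (f1 q)]
    ring
  · simp only [hq, if_false]
    rw [zero_add, Finset.sum_eq_single (f2 q)]
    · rw [if_pos rfl, if_neg hq, one_mul]
    · intro h _ hh
      rw [if_neg hh, zero_mul]
    · intro h; exact absurd (Finset.mem_univ _) h

/-- a vector annihilated by the derivations with nonzero second index -/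
theorem gam_ker (om : Fin D → ℂ) (hom : om 0 ≠ 0) (m : Fin (n * D) → ℂ)
    (h0 : ∀ d : Fin (n * D), f2 d ≠ 0 → ∑ j, gam om d j * m j = 0) :
    (∀ j h, m (pr j h) = m (pr j 0) / om 0 * om h) ∧
      ∀ j, ∑ q, gam om (pr j 0) q * m q = -(m (pr j 0) / om 0) := by
  have hs : ∀ d : Fin (n * D), ∑ j, gam om d j * m j =
      ∑ h, (if h = 0 then (if f2 d = 0 then -1 / om 0 else -om (f2 d) / om 0)
        else (if f2 d = h then 1 else 0)) * m (pr (f1 d) h) := by
    intro d
    rw [sum_pr, Finset.sum_eq_single (f1 d)]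
    · apply Finset.sum_congr rfl
      intro h _
      unfold gam
      rw [f1_pr, f2_pr, if_pos rfl]
    · intro i _ hi
      apply Finset.sum_eq_zero
      intro h _
      unfold gam
      rw [f1_pr, if_neg (Ne.symm hi), zero_mul]
    · intro h; exact absurd (Finset.mem_univ _) h
  constructor
  · intro j h
    by_cases hh : h = 0
    · subst hh; field_simp
    · have h1 := h0 (pr j h) (by rw [f2_pr]; exact hh)
      rw [hs, f1_pr, f2_pr] at h1
      have h2 : ∀ h', (if h' = 0 then (if h = 0 then -1 / om 0 else -om h / om 0)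
          else (if h = h' then 1 else 0)) * m (pr j h') =
          (if h' = 0 then -om h / om 0 * m (pr j 0) else 0) + (if h' = h then m (pr j h) else 0) := by
        intro h'
        by_cases e1 : h' = 0
        · subst e1
          rw [if_pos rfl, if_neg hh, if_pos rfl, if_neg (Ne.symm hh), add_zero]
        · rw [if_neg e1, if_neg e1, zero_add]
          by_cases e2 : h' = h
          · subst e2; rw [if_pos rfl, if_pos rfl, one_mul]
          · rw [if_neg e2, if_neg (Ne.symm e2), zero_mul]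
      simp only [h2] at h1
      rw [Finset.sum_add_distrib, Finset.sum_ite_eq', Finset.sum_ite_eq',
        if_pos (Finset.mem_univ _), if_pos (Finset.mem_univ _)] at h1
      have h3 : m (pr j h) = om h / om 0 * m (pr j 0) := by linear_combination h1
      rw [h3]; ring
  · intro j
    rw [hs, f1_pr, f2_pr]
    have h2 : ∀ h', (if h' = 0 then (if (0 : Fin D) = 0 then -1 / om 0 else -om 0 / om 0)
          else (if (0 : Fin D) = h' then 1 else 0)) * m (pr j h') =
          (if h' = 0 then -1 / om 0 * m (pr j 0) else 0) := by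
      intro h'
      by_cases e1 : h' = 0
      · subst e1
        rw [if_pos rfl, if_pos rfl, if_pos rfl]
      · rw [if_neg e1, if_neg e1, if_neg (Ne.symm e1), zero_mul]
    rw [Finset.sum_congr rfl (fun h' _ => h2 h'), Finset.sum_ite_eq', if_pos (Finset.mem_univ _)]
    ring

end idx

/-! ### periods -/

/-- the pairing -/
noncomputable def pairing {L q : ℕ} (Lam : Fin L → Fin q → ℂ) (m : Fin q → ℚ) :
    (Fin L → ℚ) →ₗ[ℚ] ℂ where
  toFun s := ∑ j, (m j : ℂ) * ∑ p, (s p : ℂ) * Lam p j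
  map_add' s s' := by
    simp only [Pi.add_apply, Rat.cast_add, add_mul, Finset.sum_add_distrib, mul_add]
  map_smul' c s := by
    simp only [Pi.smul_apply, smul_eq_mul, Rat.cast_mul, RingHom.id_apply, Rat.smul_def,
      Finset.mul_sum]
    apply Finset.sum_congr rfl; intro j _
    apply Finset.sum_congr rfl; intro p _
    ring

theorem pairing_apply {L q : ℕ} (Lam : Fin L → Fin q → ℂ) (m : Fin q → ℚ) (s : Fin L → ℚ) :
    pairing Lam m s = ∑ j, (m j : ℂ) * ∑ p, (s p : ℂ) * Lam p j := rfl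

theorem pairing_add {L q : ℕ} (Lam : Fin L → Fin q → ℂ) (m m' : Fin q → ℚ) (s : Fin L → ℚ) :
    pairing Lam (m + m') s = pairing Lam m s + pairing Lam m' s := by
  simp only [pairing_apply, Pi.add_apply, Rat.cast_add, add_mul, Finset.sum_add_distrib]

theorem pairing_smul {L q : ℕ} (Lam : Fin L → Fin q → ℂ) (c : ℚ) (m : Fin q → ℚ) (s : Fin L → ℚ) :
    pairing Lam (c • m) s = (c : ℂ) * pairing Lam m s := by
  simp only [pairing_apply, Pi.smul_apply, smul_eq_mul, Rat.cast_mul, Finset.mul_sum]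
  apply Finset.sum_congr rfl; intro j _
  apply Finset.sum_congr rfl; intro p _
  ring

/-- integer vectors as rational vectors -/
def toQ {q : ℕ} (m : Fin q → ℤ) : Fin q → ℚ := fun j => (m j : ℚ)

/-- rational multiples of `2πi` -/
noncomputable def per : Submodule ℚ ℂ := Submodule.span ℚ {2 * Real.pi * Complex.I}

theorem mem_per {z : ℂ} : z ∈ per ↔ ∃ c : ℚ, z = c * (2 * Real.pi * Complex.I) := by
  unfold per
  rw [Submodule.mem_span_singleton]
  constructor
  · rintro ⟨c, rfl⟩; exact ⟨c, by rw [Rat.smul_def]⟩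
  · rintro ⟨c, rfl⟩; exact ⟨c, by rw [Rat.smul_def]⟩

/-- combinations satisfying the conditions up to periods -/
noncomputable def Q1 {L q : ℕ} (Lam : Fin L → Fin q → ℂ) (Rm : AddSubgroup (Fin q → ℤ))
    (S : Submodule ℚ (Fin L → ℚ)) : Submodule ℚ (Fin L → ℚ) :=
  S ⊓ ⨅ m : Rm, (per.comap (pairing Lam (toQ m)))

/-- combinations satisfying the conditions -/
noncomputable def Q0 {L q : ℕ} (Lam : Fin L → Fin q → ℂ) (Rm : AddSubgroup (Fin q → ℤ))
    (S : Submodule ℚ (Fin L → ℚ)) : Submodule ℚ (Fin L → ℚ) :=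
  S ⊓ ⨅ m : Rm, LinearMap.ker (pairing Lam (toQ m))

theorem mem_Q1 {L q : ℕ} {Lam : Fin L → Fin q → ℂ} {Rm : AddSubgroup (Fin q → ℤ)}
    {S : Submodule ℚ (Fin L → ℚ)} {s : Fin L → ℚ} :
    s ∈ Q1 Lam Rm S ↔ s ∈ S ∧ ∀ m ∈ Rm, pairing Lam (toQ m) s ∈ per := by
  unfold Q1
  simp [Submodule.mem_iInf]

theorem mem_Q0 {L q : ℕ} {Lam : Fin L → Fin q → ℂ} {Rm : AddSubgroup (Fin q → ℤ)}
    {S : Submodule ℚ (Fin L → ℚ)} {s : Fin L → ℚ} :
    s ∈ Q0 Lam Rm S ↔ s ∈ S ∧ ∀ m ∈ Rm, pairing Lam (toQ m) s = 0 := by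
  unfold Q0
  simp [Submodule.mem_iInf]

theorem toQ_basis {q : ℕ} (Rm : AddSubgroup (Fin q → ℤ)) (m : Fin q → ℤ) (hm : m ∈ Rm) :
    ∃ c : Fin (finrank ℤ (AddSubgroup.toIntSubmodule Rm)) → ℤ,
      toQ m = ∑ k, (c k : ℚ) •
        toQ (((Module.finBasis ℤ (AddSubgroup.toIntSubmodule Rm)) k : Fin q → ℤ)) := by
  let B := Module.finBasis ℤ (AddSubgroup.toIntSubmodule Rm)
  have h1 := B.sum_repr ⟨m, hm⟩
  refine ⟨fun k => B.repr ⟨m, hm⟩ k, ?_⟩
  funext j
  have h3 := congrArg (fun v : AddSubgroup.toIntSubmodule Rm => (v : Fin q → ℤ) j) h1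
  simp only [Submodule.coe_sum, Submodule.coe_smul, Finset.sum_apply, Pi.smul_apply,
    smul_eq_mul] at h3
  rw [Finset.sum_apply]
  simp only [toQ, Pi.smul_apply, smul_eq_mul]
  rw [← h3]
  push_cast
  rfl

theorem finrank_Q1_le {L q : ℕ} (Lam : Fin L → Fin q → ℂ) (Rm : AddSubgroup (Fin q → ℤ))
    (S : Submodule ℚ (Fin L → ℚ)) :
    finrank ℚ (Q1 Lam Rm S) ≤ finrank ℤ Rm + finrank ℚ (Q0 Lam Rm S) := by
  classical
  let B := Module.finBasis ℤ (AddSubgroup.toIntSubmodule Rm)
  let Φ : (Fin L → ℚ) →ₗ[ℚ] (Fin (finrank ℤ (AddSubgroup.toIntSubmodule Rm)) → ℂ) :=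
    LinearMap.pi (fun k => pairing Lam (toQ (B k : Fin q → ℤ)))
  let Pm : (Fin (finrank ℤ (AddSubgroup.toIntSubmodule Rm)) → ℚ) →ₗ[ℚ]
      (Fin (finrank ℤ (AddSubgroup.toIntSubmodule Rm)) → ℂ) :=
    LinearMap.pi (fun k => (LinearMap.toSpanSingleton ℚ ℂ (2 * Real.pi * Complex.I)).comp
      (LinearMap.proj k))
  have h1 := LinearMap.finrank_range_add_finrank_ker (Φ.domRestrict (Q1 Lam Rm S))
  have h2 : finrank ℚ (LinearMap.range (Φ.domRestrict (Q1 Lam Rm S))) ≤ finrank ℤ Rm := by
    have h3 : LinearMap.range (Φ.domRestrict (Q1 Lam Rm S)) ≤ LinearMap.range Pm := by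
      rintro _ ⟨s, rfl⟩
      have hs := (mem_Q1.mp s.2).2
      have h4 : ∀ k, ∃ c : ℚ, pairing Lam (toQ (B k : Fin q → ℤ)) (s : Fin L → ℚ) =
          c * (2 * Real.pi * Complex.I) := fun k => mem_per.mp (hs _ (B k).2)
      choose c hc using h4
      refine ⟨c, ?_⟩
      funext k
      change c k • (2 * Real.pi * Complex.I : ℂ) = pairing Lam (toQ (B k : Fin q → ℤ)) (s : Fin L → ℚ)
      rw [hc k, Rat.smul_def]
    refine (Submodule.finrank_mono h3).trans ((LinearMap.finrank_range_le Pm).trans ?_)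
    rw [Module.finrank_fintype_fun_eq_card, Fintype.card_fin]
    exact le_rfl
  have h5 : finrank ℚ (LinearMap.ker (Φ.domRestrict (Q1 Lam Rm S))) ≤
      finrank ℚ (Q0 Lam Rm S) := by
    rw [← Submodule.finrank_map_subtype_eq (Q1 Lam Rm S)
      (LinearMap.ker (Φ.domRestrict (Q1 Lam Rm S)))]
    apply Submodule.finrank_mono
    rintro _ ⟨s, hs, rfl⟩
    rw [SetLike.mem_coe, LinearMap.mem_ker] at hs
    have hs' : ∀ k, pairing Lam (toQ (B k : Fin q → ℤ)) (s : Fin L → ℚ) = 0 :=
      fun k => congrFun hs k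
    refine mem_Q0.mpr ⟨(mem_Q1.mp s.2).1, fun m hm => ?_⟩
    obtain ⟨c, hc⟩ := toQ_basis Rm m hm
    have h6 : ∀ (t : Finset (Fin (finrank ℤ (AddSubgroup.toIntSubmodule Rm)))),
        pairing Lam (∑ k ∈ t, (c k : ℚ) • toQ (B k : Fin q → ℤ)) (s : Fin L → ℚ) = 0 := by
      intro t
      induction t using Finset.induction_on with
      | empty => rw [Finset.sum_empty, pairing_apply]; simp
      | insert k t hk ih =>
        rw [Finset.sum_insert hk, pairing_add, pairing_smul, hs' k, ih]; simp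
    rw [hc]
    exact h6 Finset.univ
  omega

end Pool.Agent.W5h65.EE.Hyp
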