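import Mathlib
import Pool.Agent.W5h65.EE.HypA

/-!
# Relations between linear forms in logarithms: the obstruction theorem
-/

set_option autoImplicit false

namespace Pool.Agent.W5h65.EE.Hyp

open Module Finset
open Pool.Agent.H335R2.Obs (kSpan finrank_kSpan obstruction2)
open Pool.Agent.H301R2.SSE (Lg mem_Lg dg bs om om_alg om_ne span_K)

section

variable {n D L : ℕ} [NeZero D]

/-- embedding of functionals, additive part -/
noncomputable def emb1 : (Fin n → ℂ) →ₗ[ℂ] (Fin (n * D) → ℂ) where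
  toFun θ := fun d => if f2 d = 0 then θ (f1 d) else 0
  map_add' θ θ' := by
    funext d
    simp only [Pi.add_apply]
    split_ifs <;> simp
  map_smul' c θ := by
    funext d
    simp only [Pi.smul_apply, smul_eq_mul, RingHom.id_apply]
    split_ifs <;> simp

theorem emb1_apply (θ : Fin n → ℂ) (d : Fin (n * D)) :
    (emb1 θ : Fin (n * D) → ℂ) d = if f2 d = 0 then θ (f1 d) else 0 := rfl

/-- embedding of functionals, multiplicative part -/
noncomputable def emb2 (om : Fin D → ℂ) : (Fin n → ℂ) →ₗ[ℂ] (Fin (n * D) → ℂ) where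
  toFun θ := fun q => θ (f1 q) * om (f2 q)
  map_add' θ θ' := by
    funext d
    simp only [Pi.add_apply, add_mul]
  map_smul' c θ := by
    funext d
    simp only [Pi.smul_apply, smul_eq_mul, RingHom.id_apply, mul_assoc]

theorem emb2_apply (om : Fin D → ℂ) (θ : Fin n → ℂ) (q : Fin (n * D)) :
    emb2 om θ q = θ (f1 q) * om (f2 q) := rfl

/-- the functionals on `ℂ^n` coming from the subgroup -/
noncomputable def Theta (om : Fin D → ℂ) (Af : Submodule ℂ (Fin (n * D) → ℂ))
    (Rm : AddSubgroup (Fin (n * D) → ℤ)) : Submodule ℂ (Fin n → ℂ) :=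
  Af.comap emb1 ⊓ (kSpan ℂ Rm).comap (emb2 om)

theorem mem_Theta {om : Fin D → ℂ} {Af : Submodule ℂ (Fin (n * D) → ℂ)}
    {Rm : AddSubgroup (Fin (n * D) → ℤ)} {θ : Fin n → ℂ} :
    θ ∈ Theta om Af Rm ↔ emb1 θ ∈ Af ∧ emb2 om θ ∈ kSpan ℂ Rm := Iff.rfl

/-- the additive conditions -/
noncomputable def Sadd (Af : Submodule ℂ (Fin (n * D) → ℂ)) (β : Fin L → Fin n → ℂ) :
    Submodule ℚ (Fin L → ℚ) where
  carrier := {s | ∀ a ∈ Af, ∑ j, a (pr j 0) * ∑ p, (s p : ℂ) * β p j = 0}
  add_mem' := by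
    intro s s' hs hs' a ha
    have h1 := hs a ha
    have h2 := hs' a ha
    simp only [Pi.add_apply, Rat.cast_add, add_mul, Finset.sum_add_distrib, mul_add]
    rw [h1, h2, add_zero]
  zero_mem' := by
    intro a _
    simp
  smul_mem' := by
    intro c s hs a ha
    have h1 := hs a ha
    have h2 : ∑ j, a (pr j 0) * ∑ p, (((c • s) p : ℚ) : ℂ) * β p j =
        (c : ℂ) * ∑ j, a (pr j 0) * ∑ p, (s p : ℂ) * β p j := by
      simp only [Pi.smul_apply, smul_eq_mul, Rat.cast_mul, Finset.mul_sum]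
      apply Finset.sum_congr rfl; intro j _
      apply Finset.sum_congr rfl; intro p _
      ring
    rw [h2, h1, mul_zero]

theorem mem_Sadd {Af : Submodule ℂ (Fin (n * D) → ℂ)} {β : Fin L → Fin n → ℂ} {s : Fin L → ℚ} :
    s ∈ Sadd Af β ↔ ∀ a ∈ Af, ∑ j, a (pr j 0) * ∑ p, (s p : ℂ) * β p j = 0 := Iff.rfl

end

theorem arith1 {n w σ κ μ δ G a' q' c : ℕ} (h : δ * κ + G * σ < a' * κ + q' * μ)
    (h1 : a' + q' ≤ δ + c) (hc : c ≤ n) (hκ : κ = σ * w + (n + w)) (hμ : μ + σ = κ)
    (hσ : σ = n * (n + w) + 1) : q' + G ≤ c * w ∧ 1 ≤ c := by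
  have e1 : (a' + q') * κ ≤ (δ + c) * κ := Nat.mul_le_mul_right κ h1
  have e2 : q' * κ = q' * μ + q' * σ := by rw [← hμ]; ring
  have e3 : G * σ + q' * σ < c * κ := by
    have e4 : (a' + q') * κ = a' * κ + q' * κ := by ring
    have e5 : (δ + c) * κ = δ * κ + c * κ := by ring
    omega
  have hc1 : 1 ≤ c := by
    by_contra h0
    have : c = 0 := by omega
    rw [this, zero_mul] at e3
    omega
  refine ⟨?_, hc1⟩
  have e6 : c * (n + w) ≤ n * (n + w) := Nat.mul_le_mul_right _ hc
  have e7 : c * κ = c * w * σ + c * (n + w) := by rw [hκ]; ring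
  have e8 : (G + q') * σ < (c * w + 1) * σ := by
    have e9 : (G + q') * σ = G * σ + q' * σ := by ring
    have e10 : (c * w + 1) * σ = c * w * σ + σ := by ring
    omega
  have e11 : G + q' < c * w + 1 := lt_of_mul_lt_mul_right e8 (Nat.zero_le σ)
  omega

variable (K : IntermediateField ℚ ℂ) [FiniteDimensional ℚ K]

theorem finrank_eq_zero_int {q : ℕ} {Rm : AddSubgroup (Fin q → ℤ)} (h : finrank ℤ Rm = 0) :
    Rm = ⊥ := by
  have h1 := finrank_kSpan ℚ Rm
  rw [h, Submodule.finrank_eq_zero] at h1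
  rw [eq_bot_iff]
  intro m hm
  have h2 : (fun j => ((m j : ℤ) : ℚ)) ∈ kSpan ℚ Rm := Submodule.subset_span ⟨m, hm, rfl⟩
  rw [h1, Submodule.mem_bot] at h2
  rw [AddSubgroup.mem_bot]
  funext j
  have := congrFun h2 j
  simpa using this

/-- **Consequence of the obstruction theorem.** -/
theorem obs_out {r L : ℕ} (a : Fin (r + 1) → ℂ) (ha0 : a 0 ≠ 0)
    (U : Fin L → Fin (r + 1) → ℂ) (β : Fin L → Fin (r + 1) → ℂ)
    (lam : Fin L → Fin (r + 1) → Fin (dg K) → ℂ) (hβ : ∀ p i, IsAlgebraic ℚ (β p i))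
    (hlam : ∀ p i h, lam p i h ∈ Lg) (hrep : ∀ p i, U p i = β p i + ∑ h, om K h * lam p i h)
    (horth : ∀ p, ∑ i, a i * U p i = 0) :
    ∃ (Af : Submodule ℂ (Fin ((r + 1) * dg K) → ℂ)) (Rm : AddSubgroup (Fin ((r + 1) * dg K) → ℤ)),
      (∀ b ∈ Af, ∀ d, f2 d ≠ 0 → b d = 0) ∧
      L + finrank ℤ Rm ≤ finrank ℂ (Theta (om K) Af Rm) * ((r + 1) * dg K) +
        finrank ℚ (Q1 (fun p q => lam p (f1 q) (f2 q)) Rm (Sadd Af β)) ∧
      1 ≤ finrank ℂ (Theta (om K) Af Rm) := by
  classical
  have hD1 : 1 ≤ dg K := Nat.one_le_iff_ne_zero.mpr (NeZero.ne (dg K))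
  let A : Finset (Fin ((r + 1) * dg K)) :=
    Finset.univ.image (fun i : Fin (r + 1) => pr i (0 : Fin (dg K)))
  have hA : ∀ d, d ∈ A ↔ f2 d = 0 := by
    intro d
    rw [Finset.mem_image]
    constructor
    · rintro ⟨i, -, rfl⟩; exact f2_pr i 0
    · intro h
      refine ⟨f1 d, Finset.mem_univ _, ?_⟩
      rw [← h]; exact pr_f d
  have hAc : A.card = r + 1 := by
    rw [Finset.card_image_of_injective, Finset.card_univ, Fintype.card_fin]
    intro i j hij
    have := congrArg f1 hij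
    simpa using this
  obtain ⟨n, hn⟩ : ∃ n, n = r + 1 := ⟨_, rfl⟩
  obtain ⟨w, hw⟩ : ∃ w, w = (r + 1) * dg K := ⟨_, rfl⟩
  have hn1 : 1 ≤ n := by omega
  have hw1 : 1 ≤ w := by rw [hw]; exact Nat.mul_pos (by omega) hD1
  obtain ⟨σ, hσ⟩ : ∃ σ, σ = n * (n + w) + 1 := ⟨_, rfl⟩
  obtain ⟨κ, hκ⟩ : ∃ κ, κ = σ * w + (n + w) := ⟨_, rfl⟩
  obtain ⟨w', hw'⟩ : ∃ w', w = w' + 1 := ⟨w - 1, by omega⟩
  obtain ⟨μ, hμ⟩ : ∃ μ, μ = σ * w' + (n + w) := ⟨_, rfl⟩
  have hμσ : μ + σ = κ := by rw [hμ, hκ, hw']; ring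
  have hcount : (κ + 1) * (r + (r + 1) * dg K) + 1 ≤ A.card * κ + ((r + 1) * dg K) * μ := by
    rw [hAc, ← hw, ← hn]
    have e1 : r + w = n + w' := by omega
    rw [e1]
    have e3 : κ * w' + (n + w') + 1 ≤ w * μ := by
      have : w * μ = w' * μ + μ := by rw [hw']; ring
      have e4 : κ * w' = w' * μ + w' * σ := by rw [← hμσ]; ring
      have e5 : μ = w' * σ + (n + w) := by rw [hμ]; ring
      omega
    have e6 : (κ + 1) * (n + w') = n * κ + κ * w' + (n + w') := by ring
    omega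
  -- the analytic directions
  let x : Fin r → Fin ((r + 1) * dg K) → ℂ := fun ρ q =>
    if f2 q = 0 then (Fin.cases (-(a ρ.succ / a 0)) (fun i => if i = ρ then 1 else 0) (f1 q : Fin (r + 1)) : ℂ)
      / om K 0 else 0
  let y : Fin r → Fin L → ℂ := fun ρ p => U p ρ.succ
  have hxy : ∀ (i : Fin (r + 1)) p, U p i =
      ∑ ρ, (Fin.cases (-(a ρ.succ / a 0)) (fun i => if i = ρ then 1 else 0) i : ℂ) * y ρ p := by
    intro i p
    refine Fin.cases ?_ (fun i' => ?_) i
    · have h1 := horth p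
      rw [Fin.sum_univ_succ] at h1
      simp only [Fin.cases_zero]
      have h2 : U p 0 = -(∑ i : Fin r, a i.succ * U p i.succ) / a 0 := by
        field_simp
        linear_combination h1
      rw [h2, neg_div, Finset.sum_div, ← Finset.sum_neg_distrib]
      apply Finset.sum_congr rfl
      intro ρ _
      simp only [y]
      ring
    · simp only [Fin.cases_succ]
      rw [Finset.sum_eq_single i']
      · rw [if_pos rfl, one_mul]
      · intro ρ _ hρ
        rw [if_neg (Ne.symm hρ), zero_mul]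
      · intro h; exact absurd (Finset.mem_univ _) h
  obtain ⟨Af, Rm, G0, δ, h1, h2, h3, h4, h5⟩ := Pool.Agent.H335R2.Obs.obstruction2
    (w := (r + 1) * dg K) (b := (r + 1) * dg K) (l := L) (r := r) A
    (fun d q => gam (om K) d q)
    (fun d p => if f2 d = 0 then β p (f1 d) else lam p (f1 d) (f2 d))
    (fun q p => lam p (f1 q) (f2 q)) x y
    (fun d q => gam_alg (om K) (om_alg K) d q)
    (by
      intro d hd p
      rw [if_pos ((hA d).mp hd)]
      exact hβ p _)
    (fun q p => hlam p _ _)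
    (by
      intro q p
      have e1 := sum_gam (om K) (om_ne K 0) (β p) (lam p) (U p) (hrep p) q
      rw [e1]
      congr 1
      by_cases hq : f2 q = 0
      · rw [if_pos hq]
        simp only [x, if_pos hq]
        rw [hxy (f1 q) p, Finset.sum_div]
        apply Finset.sum_congr rfl
        intro ρ _
        ring
      · rw [if_neg hq]
        symm
        apply Finset.sum_eq_zero
        intro ρ _
        simp only [x, if_neg hq, zero_mul])
    κ μ σ hμσ hcount
  have hsupp : ∀ b ∈ Af, ∀ d, f2 d ≠ 0 → b d = 0 := fun b hb d hd =>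
    h1 b hb d (fun h => hd ((hA d).mp h))
  refine ⟨Af, Rm, hsupp, ?_⟩
  -- the dimension count
  have hdim : finrank ℂ Af + finrank ℤ Rm ≤ δ + finrank ℂ (Theta (om K) Af Rm) := by
    refine (h4 ((Theta (om K) Af Rm).map (emb2 (om K))) ?_).trans
      (Nat.add_le_add_left (Submodule.finrank_map_le _ _) δ)
    intro m hm hmA
    obtain ⟨g1, g2⟩ := gam_ker (om K) (om_ne K 0) m (fun d hd => hsupp _ hmA d hd)
    refine ⟨fun j => m (pr j 0) / om K 0, ?_, ?_⟩
    · rw [SetLike.mem_coe, mem_Theta]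
      have e1 : emb2 (om K) (fun j => m (pr j 0) / om K 0) = m := by
        funext q
        have e0 := g1 (f1 q) (f2 q)
        rw [pr_f] at e0
        rw [emb2_apply]
        exact e0.symm
      rw [e1]
      refine ⟨?_, hm⟩
      have e2 : (emb1 (fun j : Fin (r + 1) => m (pr j 0) / om K 0) :
          Fin ((r + 1) * dg K) → ℂ) =
          -(fun i => ∑ j, gam (om K) i j * m j) := by
        funext d
        rw [emb1_apply, Pi.neg_apply]
        by_cases hd : f2 d = 0
        · rw [if_pos hd]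
          have e3 : d = pr (f1 d) 0 := by rw [← hd]; exact (pr_f d).symm
          have e4 := g2 (f1 d)
          rw [← e3] at e4
          rw [e4, neg_neg]
          rw [← e3]
        · rw [if_neg hd]
          have e5 : ∑ j, gam (om K) d j * m j = 0 := hsupp _ hmA d hd
          rw [e5, neg_zero]
      rw [e2]
      exact Af.neg_mem hmA
    · funext q
      have e0 := g1 (f1 q) (f2 q)
      rw [pr_f] at e0
      rw [emb2_apply]
      exact e0.symm
  have hcn : finrank ℂ (Theta (om K) Af Rm) ≤ n := by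
    have := Submodule.finrank_le (Theta (om K) Af Rm)
    rw [Module.finrank_fintype_fun_eq_card, Fintype.card_fin] at this
    omega
  -- the strict inequality holds
  have hstrict : δ * κ + (L - finrank ℤ G0) * σ < finrank ℂ Af * κ + finrank ℤ Rm * μ := by
    rcases h5 with h | ⟨h6, h7, h8⟩
    · exact h
    · exfalso
      rw [h7, h8, zero_mul, zero_mul, add_zero] at h6
      have hκ0 : 0 < κ := by rw [hκ]; omega
      have hμ0 : 0 < μ := by rw [hμ]; omega
      have e1 : finrank ℂ Af * κ = 0 := by omega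
      have e2 : finrank ℤ Rm * μ = 0 := by omega
      have e3 : finrank ℂ Af = 0 := by
        rcases Nat.mul_eq_zero.mp e1 with h | h
        · exact h
        · omega
      have e4 : finrank ℤ Rm = 0 := by
        rcases Nat.mul_eq_zero.mp e2 with h | h
        · exact h
        · omega
      exact h2 ⟨Submodule.finrank_eq_zero.mp e3, finrank_eq_zero_int e4⟩
  obtain ⟨h9, h10⟩ := arith1 hstrict hdim hcn hκ hμσ hσ
  refine ⟨?_, h10⟩
  -- the rank of `G0`
  have hG : finrank ℤ G0 ≤
      finrank ℚ (Q1 (fun p q => lam p (f1 q) (f2 q)) Rm (Sadd Af β)) := by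
    rw [← finrank_kSpan ℚ G0]
    apply Submodule.finrank_mono
    unfold kSpan
    rw [Submodule.span_le]
    rintro _ ⟨s, hs, rfl⟩
    obtain ⟨hs1, hs2⟩ := (h3 s).mp hs
    rw [SetLike.mem_coe, mem_Q1]
    constructor
    · rw [mem_Sadd]
      intro b hb
      have e1 := hs1 b hb
      rw [sum_pr] at e1
      rw [← e1]
      apply Finset.sum_congr rfl
      intro j _
      rw [Finset.sum_eq_single (0 : Fin (dg K))]
      · congr 1
        apply Finset.sum_congr rfl
        intro p _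
        rw [f2_pr, if_pos rfl, f1_pr]
        push_cast
        ring
      · intro h _ hh
        rw [hsupp b hb (pr j h) (by rw [f2_pr]; exact hh), zero_mul]
      · intro h; exact absurd (Finset.mem_univ _) h
    · intro m hm
      obtain ⟨k, hk⟩ := hs2 m hm
      rw [mem_per]
      refine ⟨k, ?_⟩
      rw [pairing_apply]
      push_cast
      rw [← hk]
      apply Finset.sum_congr rfl; intro j _
      rw [Finset.mul_sum]
      apply Finset.sum_congr rfl; intro p _
      simp only [toQ]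
      push_cast
      ring
  calc L + finrank ℤ Rm ≤ (finrank ℤ Rm + (L - finrank ℤ G0)) + finrank ℤ G0 := by omega
    _ ≤ finrank ℂ (Theta (om K) Af Rm) * w + finrank ℤ G0 := Nat.add_le_add_right h9 _
    _ = finrank ℂ (Theta (om K) Af Rm) * ((r + 1) * dg K) + finrank ℤ G0 := by
        rw [hw]
    _ ≤ _ := Nat.add_le_add_left hG _

end Pool.Agent.W5h65.EE.Hyp
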