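import Mathlib
import Pool.Agent.W5h65.EE.HypB

/-!
# Relations between linear forms in logarithms: the induction
-/

set_option autoImplicit false

namespace Pool.Agent.W5h65.EE.Hyp

open Module Finset
open Pool.Agent.H335R2.Obs (kSpan finrank_kSpan exists_rat_form form_cSpan finrank_orth_le)
open Pool.Agent.H301R2.SSE (Lg mem_Lg dg bs om om_alg om_ne span_K)
open Pool.Agent.H301R2.ZG (exists_dual)

variable (K : IntermediateField ℚ ℂ) [FiniteDimensional ℚ K]

theorem om_li (q : Fin (dg K) → ℚ) (h : ∑ i, (q i : ℂ) * om K i = 0) : q = 0 := by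
  have h1 : ∑ i, q i • bs K i = 0 := by
    apply Subtype.ext
    rw [ZeroMemClass.coe_zero, ← h]
    rw [IntermediateField.coe_sum]
    apply Finset.sum_congr rfl
    intro i _
    rw [Algebra.smul_def]
    rfl
  have h2 := Fintype.linearIndependent_iff.mp (bs K).linearIndependent q h1
  funext i
  exact h2 i

/-- `K`-linear combinations of `1` and logarithms -/
noncomputable def LtK : Submodule K ℂ :=
  Submodule.span K ({1} ∪ {z : ℂ | IsAlgebraic ℚ (Complex.exp z)})

theorem LtK_rep {z : ℂ} (hz : z ∈ LtK K) : ∃ (β : K) (lam : Fin (dg K) → ℂ),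
    (∀ h, lam h ∈ Lg) ∧ z = β + ∑ h, om K h * lam h := by
  unfold LtK at hz
  rw [Submodule.span_union, Submodule.mem_sup] at hz
  obtain ⟨y, hy, z', hz', rfl⟩ := hz
  rw [Submodule.mem_span_singleton] at hy
  obtain ⟨b, rfl⟩ := hy
  obtain ⟨u, hu, rfl⟩ := span_K K hz'
  refine ⟨b, u, hu, ?_⟩
  rw [Algebra.smul_def, mul_one]; rfl

theorem LtK_of_rep {β : K} {lam : Fin (dg K) → ℂ} (hlam : ∀ h, lam h ∈ Lg) :
    (β : ℂ) + ∑ h, om K h * lam h ∈ LtK K := by
  apply Submodule.add_mem
  · have h1 : (1 : ℂ) ∈ LtK K := Submodule.subset_span (Or.inl rfl)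
    have h2 := (LtK K).smul_mem β h1
    rw [Algebra.smul_def, mul_one] at h2
    exact h2
  · apply Submodule.sum_mem
    intro h _
    have h1 : lam h ∈ LtK K := Submodule.subset_span (Or.inr (hlam h))
    have h2 := (LtK K).smul_mem (bs K h) h1
    rw [Algebra.smul_def] at h2
    exact h2

/-- the combination of the vectors -/
noncomputable def Vl {L n : ℕ} (U : Fin L → Fin n → ℂ) : (Fin L → ℚ) →ₗ[ℚ] (Fin n → ℂ) where
  toFun s := fun i => ∑ p, (s p : ℂ) * U p i
  map_add' s s' := by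
    funext i
    simp only [Pi.add_apply, Rat.cast_add, add_mul, Finset.sum_add_distrib]
  map_smul' c s := by
    funext i
    simp only [Pi.smul_apply, smul_eq_mul, Rat.cast_mul, RingHom.id_apply, Rat.smul_def,
      Finset.mul_sum, mul_assoc]

theorem Vl_apply {L n : ℕ} (U : Fin L → Fin n → ℂ) (s : Fin L → ℚ) (i : Fin n) :
    Vl U s i = ∑ p, (s p : ℂ) * U p i := rfl

theorem Vl_inj {L n : ℕ} {U : Fin L → Fin n → ℂ} (hU : LinearIndependent ℚ U) {s : Fin L → ℚ}
    (h : Vl U s = 0) : s = 0 := by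
  have h1 : ∑ p, s p • U p = 0 := by
    funext i
    have := congrFun h i
    rw [Vl_apply] at this
    rw [Finset.sum_apply, ← this]
    apply Finset.sum_congr rfl
    intro p _
    rw [Pi.smul_apply, Rat.smul_def]
  have h2 := Fintype.linearIndependent_iff.mp hU s h1
  funext p
  exact h2 p

theorem Vl_rep {L n : ℕ} {U : Fin L → Fin n → ℂ} {β : Fin L → Fin n → K}
    {lam : Fin L → Fin n → Fin (dg K) → ℂ}
    (hrep : ∀ p i, U p i = β p i + ∑ h, om K h * lam p i h) (s : Fin L → ℚ) (i : Fin n) :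
    Vl U s i = ∑ p, (s p : ℂ) * (β p i : ℂ) + ∑ h, om K h * ∑ p, (s p : ℂ) * lam p i h := by
  rw [Vl_apply]
  have h1 : ∀ p, (s p : ℂ) * U p i =
      (s p : ℂ) * (β p i : ℂ) + ∑ h, om K h * ((s p : ℂ) * lam p i h) := by
    intro p
    rw [hrep, mul_add, Finset.mul_sum]
    congr 1
    apply Finset.sum_congr rfl; intro h _; ring
  rw [Finset.sum_congr rfl (fun p _ => h1 p), Finset.sum_add_distrib]
  congr 1
  rw [Finset.sum_comm]
  apply Finset.sum_congr rfl; intro h _
  rw [Finset.mul_sum]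

section cases

variable {n L : ℕ} (Af : Submodule ℂ (Fin (n * dg K) → ℂ)) (Rm : AddSubgroup (Fin (n * dg K) → ℤ))

/-- if all functionals occur, the rank is maximal -/
theorem top_rank (htop : Theta (om K) Af Rm = ⊤) : n * dg K ≤ finrank ℤ Rm := by
  by_contra hc
  rw [not_le] at hc
  obtain ⟨q, hq0, hq⟩ := exists_rat_form Rm hc
  apply hq0
  funext i
  have h1 : (Pi.single (f1 i) 1 : Fin n → ℂ) ∈ Theta (om K) Af Rm := by rw [htop]; trivial
  have h2 := form_cSpan hq (mem_Theta.mp h1).2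
  rw [sum_pr, Finset.sum_eq_single (f1 i)] at h2
  · have h3 : ∑ h, ((fun h => q (pr (f1 i) h)) h : ℂ) * om K h = 0 := by
      rw [← h2]
      apply Finset.sum_congr rfl
      intro h _
      rw [emb2_apply, f1_pr, f2_pr, Pi.single_eq_same, one_mul]
    have h4 := om_li K (fun h => q (pr (f1 i) h)) h3
    have h5 := congrFun h4 (f2 i)
    simp only [Pi.zero_apply] at h5
    rw [pr_f] at h5
    exact h5
  · intro j _ hj
    apply Finset.sum_eq_zero
    intro h _
    rw [emb2_apply, f1_pr, Pi.single_eq_of_ne hj, zero_mul, mul_zero]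
  · intro h; exact absurd (Finset.mem_univ _) h

/-- if all functionals occur, there are no nontrivial periods -/
theorem top_Q1 {a : Fin n → ℂ} (ha : LinearIndependent K a) {U : Fin L → Fin n → ℂ}
    (hU : LinearIndependent ℚ U) {β : Fin L → Fin n → K}
    {lam : Fin L → Fin n → Fin (dg K) → ℂ}
    (hrep : ∀ p i, U p i = β p i + ∑ h, om K h * lam p i h)
    (horth : ∀ p, ∑ i, a i * U p i = 0) (htop : Theta (om K) Af Rm = ⊤) :
    Q1 (fun p q => lam p (f1 q) (f2 q)) Rm (Sadd Af (fun p i => (β p i : ℂ))) = ⊥ := by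
  have hrank := top_rank K Af Rm htop
  have hQ : kSpan ℚ Rm = ⊤ := by
    apply Submodule.eq_top_of_finrank_eq
    rw [finrank_kSpan]
    apply le_antisymm
    · rw [← finrank_kSpan ℚ Rm]
      exact Submodule.finrank_le _
    · rw [Module.finrank_fintype_fun_eq_card, Fintype.card_fin]
      exact hrank
  rw [eq_bot_iff]
  intro s hs
  obtain ⟨hs1, hs2⟩ := mem_Q1.mp hs
  rw [mem_Sadd] at hs1
  have hB : ∀ j, ∑ p, (s p : ℂ) * (β p j : ℂ) = 0 := by
    intro j
    have h1 : (Pi.single j 1 : Fin n → ℂ) ∈ Theta (om K) Af Rm := by rw [htop]; trivial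
    have h2 := hs1 _ (mem_Theta.mp h1).1
    rw [Finset.sum_eq_single j] at h2
    · rw [emb1_apply, f2_pr, if_pos rfl, f1_pr, Pi.single_eq_same, one_mul] at h2
      exact h2
    · intro i _ hi
      rw [emb1_apply, f2_pr, if_pos rfl, f1_pr, Pi.single_eq_of_ne hi, zero_mul]
    · intro h; exact absurd (Finset.mem_univ _) h
  have hall : ∀ m : Fin (n * dg K) → ℚ,
      pairing (fun p q => lam p (f1 q) (f2 q)) m s ∈ per := by
    intro m
    have hm : m ∈ kSpan ℚ Rm := by rw [hQ]; trivial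
    unfold kSpan at hm
    refine Submodule.span_induction (p := fun m _ =>
      pairing (fun p q => lam p (f1 q) (f2 q)) m s ∈ per) ?_ ?_ ?_ ?_ hm
    · rintro _ ⟨ρ, hρ, rfl⟩
      exact hs2 ρ hρ
    · rw [pairing_apply]; simp
    · intro x y _ _ hx hy
      rw [pairing_add]; exact per.add_mem hx hy
    · intro c x _ hx
      rw [pairing_smul, ← Rat.smul_def]; exact per.smul_mem c hx
  have hΛ : ∀ i h, ∃ c : ℚ, ∑ p, (s p : ℂ) * lam p i h = c * (2 * Real.pi * Complex.I) := by
    intro i h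
    have h1 := hall (Pi.single (pr i h) 1)
    rw [mem_per] at h1
    obtain ⟨c, hc⟩ := h1
    refine ⟨c, ?_⟩
    rw [← hc, pairing_apply, Finset.sum_eq_single (pr i h)]
    · rw [Pi.single_eq_same, f1_pr, f2_pr]; push_cast; rw [one_mul]
    · intro j _ hj
      rw [Pi.single_eq_of_ne hj]; push_cast; rw [zero_mul]
    · intro h; exact absurd (Finset.mem_univ _) h
  choose c hc using hΛ
  have hV : ∀ i, Vl U s i = (2 * Real.pi * Complex.I) *
      ((∑ h, c i h • bs K h : K) : ℂ) := by
    intro i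
    rw [Vl_rep K hrep, hB i, zero_add]
    rw [IntermediateField.coe_sum, Finset.mul_sum]
    apply Finset.sum_congr rfl
    intro h _
    rw [hc i h, Algebra.smul_def]
    have : ((algebraMap ℚ K (c i h) * bs K h : K) : ℂ) = (c i h : ℂ) * om K h := rfl
    rw [this]
    ring
  have hsum : ∑ i, a i * Vl U s i = 0 := by
    simp only [Vl_apply, Finset.mul_sum]
    rw [Finset.sum_comm]
    apply Finset.sum_eq_zero
    intro p _
    have h1 := horth p
    have h2 : ∑ i, a i * ((s p : ℂ) * U p i) = (s p : ℂ) * ∑ i, a i * U p i := by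
      rw [Finset.mul_sum]; apply Finset.sum_congr rfl; intro i _; ring
    rw [h2, h1, mul_zero]
  have hpi : (2 * Real.pi * Complex.I : ℂ) ≠ 0 := by
    simp [Real.pi_ne_zero, Complex.I_ne_zero]
  have hk : ∀ i, (∑ h, c i h • bs K h : K) = 0 := by
    apply Fintype.linearIndependent_iff.mp ha
    have h1 : (2 * Real.pi * Complex.I : ℂ) * ∑ i, (∑ h, c i h • bs K h : K) • a i = 0 := by
      rw [← hsum, Finset.mul_sum]
      apply Finset.sum_congr rfl
      intro i _
      rw [hV i, Algebra.smul_def]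
      have : (algebraMap K ℂ (∑ h, c i h • bs K h : K)) = ((∑ h, c i h • bs K h : K) : ℂ) := rfl
      rw [this]; ring
    exact (mul_eq_zero.mp h1).resolve_left hpi
  rw [Submodule.mem_bot]
  apply Vl_inj hU
  funext i
  rw [hV i, hk i]
  simp

end cases

end Pool.Agent.W5h65.EE.Hyp
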