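import Mathlib
import Pool.Agent.W5h65.EE.HypC

/-!
# Relations between linear forms in logarithms: the main theorem
-/

set_option autoImplicit false

namespace Pool.Agent.W5h65.EE.Hyp

open Module Finset
open Pool.Agent.H335R2.Obs (kSpan finrank_kSpan finrank_orth_le)
open Pool.Agent.H301R2.SSE (Lg mem_Lg dg bs om om_alg om_ne span_K)
open Pool.Agent.H301R2.ZG (exists_dual)

section dual

variable {F : Type*} [Field F] {n : ℕ}

/-- dual vectors form a basis -/
theorem dual_expand (E : Submodule F (Fin n → F)) (e : Fin (finrank F E) → Fin n)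
    (b : Fin (finrank F E) → (Fin n → F)) (hb : ∀ k, b k ∈ E)
    (hd : ∀ k k', b k' (e k) = if k = k' then 1 else 0) {z : Fin n → F} (hz : z ∈ E) (j : Fin n) :
    z j = ∑ k, z (e k) * b k j := by
  classical
  have hli : LinearIndependent F (fun k => (⟨b k, hb k⟩ : E)) := by
    rw [Fintype.linearIndependent_iff]
    intro c hc k
    have h1 := congrArg (fun v : E => (v : Fin n → F) (e k)) hc
    simp only [Submodule.coe_sum, Submodule.coe_smul, Finset.sum_apply, Pi.smul_apply,
      smul_eq_mul, ZeroMemClass.coe_zero, Pi.zero_apply, hd] at h1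
    simpa using h1
  let B := basisOfLinearIndependentOfCardEqFinrank' (fun k => (⟨b k, hb k⟩ : E)) hli (by simp)
  have hB : ∀ k, (B k : Fin n → F) = b k := by
    intro k
    simp [B]
  have h1 := B.sum_repr ⟨z, hz⟩
  have h2 : ∀ i, z i = ∑ k, B.repr ⟨z, hz⟩ k * b k i := by
    intro i
    have h3 := congrArg (fun v : E => (v : Fin n → F) i) h1
    simp only [Submodule.coe_sum, Submodule.coe_smul, Finset.sum_apply, Pi.smul_apply,
      smul_eq_mul, hB] at h3
    exact h3.symm
  have h4 : ∀ k, z (e k) = B.repr ⟨z, hz⟩ k := by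
    intro k
    rw [h2 (e k), Finset.sum_eq_single k]
    · rw [hd, if_pos rfl, mul_one]
    · intro k' _ hk'
      rw [hd, if_neg (Ne.symm hk'), mul_zero]
    · intro h; exact absurd (Finset.mem_univ _) h
  rw [h2 j]
  apply Finset.sum_congr rfl
  intro k _
  rw [h4]

end dual

variable (K : IntermediateField ℚ ℂ) [FiniteDimensional ℚ K]

section EKs

variable {n L : ℕ} (Af : Submodule ℂ (Fin (n * dg K) → ℂ)) (Rm : AddSubgroup (Fin (n * dg K) → ℤ))

/-- the `K`-points of the image of the tangent space -/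
noncomputable def EK : Submodule K (Fin n → K) where
  carrier := {z | ∃ (z0 : Fin n → K) (zz : Fin (n * dg K) → K),
    (∀ b ∈ Af, ∑ j, b (pr j 0) * (z0 j : ℂ) = 0) ∧
    (∀ m ∈ Rm, ∑ q, (m q : ℂ) * (zz q : ℂ) = 0) ∧
    ∀ j, (z j : ℂ) = z0 j + ∑ h, om K h * (zz (pr j h) : ℂ)}
  add_mem' := by
    rintro z z' ⟨z0, zz, h1, h2, h3⟩ ⟨z0', zz', h1', h2', h3'⟩
    refine ⟨z0 + z0', zz + zz', fun b hb => ?_, fun m hm => ?_, fun j => ?_⟩
    · simp only [Pi.add_apply, AddMemClass.coe_add, mul_add, Finset.sum_add_distrib, h1 b hb,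
        h1' b hb, add_zero]
    · simp only [Pi.add_apply, AddMemClass.coe_add, mul_add, Finset.sum_add_distrib, h2 m hm,
        h2' m hm, add_zero]
    · simp only [Pi.add_apply, AddMemClass.coe_add, mul_add, Finset.sum_add_distrib, h3, h3']
      ring
  zero_mem' := ⟨0, 0, fun b _ => by simp, fun m _ => by simp, fun j => by simp⟩
  smul_mem' := by
    rintro c z ⟨z0, zz, h1, h2, h3⟩
    refine ⟨c • z0, c • zz, fun b hb => ?_, fun m hm => ?_, fun j => ?_⟩
    · have e1 : ∑ j, b (pr j 0) * (((c • z0) j : K) : ℂ) =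
          (c : ℂ) * ∑ j, b (pr j 0) * (z0 j : ℂ) := by
        rw [Finset.mul_sum]; apply Finset.sum_congr rfl; intro j _
        rw [Pi.smul_apply, smul_eq_mul, MulMemClass.coe_mul]; ring
      rw [e1, h1 b hb, mul_zero]
    · have e1 : ∑ q, (m q : ℂ) * (((c • zz) q : K) : ℂ) =
          (c : ℂ) * ∑ q, (m q : ℂ) * (zz q : ℂ) := by
        rw [Finset.mul_sum]; apply Finset.sum_congr rfl; intro j _
        rw [Pi.smul_apply, smul_eq_mul, MulMemClass.coe_mul]; ring
      rw [e1, h2 m hm, mul_zero]
    · rw [Pi.smul_apply, smul_eq_mul, MulMemClass.coe_mul, h3, mul_add, Finset.mul_sum]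
      congr 1
      apply Finset.sum_congr rfl; intro h _
      rw [Pi.smul_apply, smul_eq_mul, MulMemClass.coe_mul]; ring

theorem mem_EK {z : Fin n → K} : z ∈ EK K Af Rm ↔
    ∃ (z0 : Fin n → K) (zz : Fin (n * dg K) → K),
    (∀ b ∈ Af, ∑ j, b (pr j 0) * (z0 j : ℂ) = 0) ∧
    (∀ m ∈ Rm, ∑ q, (m q : ℂ) * (zz q : ℂ) = 0) ∧
    ∀ j, (z j : ℂ) = z0 j + ∑ h, om K h * (zz (pr j h) : ℂ) := Iff.rfl

theorem EK_orth {θ : Fin n → ℂ} (hθ : θ ∈ Theta (om K) Af Rm) {z : Fin n → K}
    (hz : z ∈ EK K Af Rm) : ∑ j, θ j * (z j : ℂ) = 0 := by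
  obtain ⟨z0, zz, h1, h2, h3⟩ := (mem_EK K Af Rm).mp hz
  obtain ⟨t1, t2⟩ := mem_Theta.mp hθ
  have e1 : ∑ j, θ j * (z0 j : ℂ) = 0 := by
    rw [← h1 _ t1]
    apply Finset.sum_congr rfl
    intro j _
    rw [emb1_apply, f2_pr, if_pos rfl, f1_pr]
  have e2 : ∀ v ∈ kSpan ℂ Rm, ∑ q, v q * (zz q : ℂ) = 0 := by
    intro v hv
    unfold kSpan at hv
    refine Submodule.span_induction (p := fun v _ => ∑ q, v q * (zz q : ℂ) = 0) ?_ ?_ ?_ ?_ hv
    · rintro _ ⟨ρ, hρ, rfl⟩
      exact h2 ρ hρ
    · simp
    · intro x y _ _ hx hy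
      simp only [Pi.add_apply, add_mul, Finset.sum_add_distrib, hx, hy, add_zero]
    · intro c x _ hx
      simp only [Pi.smul_apply, smul_eq_mul, mul_assoc, ← Finset.mul_sum, hx, mul_zero]
  have e3 := e2 _ t2
  rw [sum_pr] at e3
  have e4 : ∑ j, θ j * (z j : ℂ) = ∑ j, θ j * (z0 j : ℂ) +
      ∑ j, ∑ h, emb2 (om K) θ (pr j h) * (zz (pr j h) : ℂ) := by
    rw [← Finset.sum_add_distrib]
    apply Finset.sum_congr rfl
    intro j _
    rw [h3 j, mul_add, Finset.mul_sum]
    congr 1
    apply Finset.sum_congr rfl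
    intro h _
    rw [emb2_apply, f1_pr, f2_pr]; ring
  rw [e4, e1, e3, add_zero]

theorem finrank_EK : finrank ℂ (Theta (om K) Af Rm) + finrank K (EK K Af Rm) ≤ n := by
  classical
  obtain ⟨e, b, hb, hd⟩ := exists_dual (EK K Af Rm)
  have hli : LinearIndependent ℂ (fun k => (fun j => ((b k j : K) : ℂ))) := by
    rw [Fintype.linearIndependent_iff]
    intro c hc k
    have h1 := congrFun hc (e k)
    simp only [Finset.sum_apply, Pi.smul_apply, smul_eq_mul, hd, Pi.zero_apply] at h1
    rw [Finset.sum_eq_single k] at h1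
    · simpa using h1
    · intro k' _ hk'
      rw [if_neg (Ne.symm hk')]; simp
    · intro h; exact absurd (Finset.mem_univ _) h
  have h2 := finrank_span_eq_card hli
  rw [Fintype.card_fin] at h2
  rw [← h2]
  apply finrank_orth_le
  intro c hc θ hθ
  refine Submodule.span_induction (p := fun c _ => ∑ i, θ i * c i = 0) ?_ ?_ ?_ ?_ hc
  · rintro _ ⟨k, rfl⟩
    exact EK_orth K Af Rm hθ (hb k)
  · simp
  · intro x y _ _ hx hy
    simp only [Pi.add_apply, mul_add, Finset.sum_add_distrib, hx, hy, add_zero]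
  · intro r x _ hx
    have : ∑ i, θ i * (r • x) i = r * ∑ i, θ i * x i := by
      rw [Finset.mul_sum]; apply Finset.sum_congr rfl; intro i _
      rw [Pi.smul_apply, smul_eq_mul]; ring
    rw [this, hx, mul_zero]

/-- the combinations in `Q0` are combinations of the dual vectors -/
theorem Q0_expand {U : Fin L → Fin n → ℂ} {β : Fin L → Fin n → K}
    {lam : Fin L → Fin n → Fin (dg K) → ℂ}
    (hrep : ∀ p i, U p i = β p i + ∑ h, om K h * lam p i h)
    (e : Fin (finrank K (EK K Af Rm)) → Fin n) (b : Fin (finrank K (EK K Af Rm)) → (Fin n → K))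
    (hb : ∀ k, b k ∈ EK K Af Rm) (hd : ∀ k k', b k' (e k) = if k = k' then 1 else 0)
    {s : Fin L → ℚ}
    (hs : s ∈ Q0 (fun p q => lam p (f1 q) (f2 q)) Rm (Sadd Af (fun p i => (β p i : ℂ))))
    (j : Fin n) : Vl U s j = ∑ k, Vl U s (e k) * (b k j : ℂ) := by
  obtain ⟨hs1, hs2⟩ := mem_Q0.mp hs
  rw [mem_Sadd] at hs1
  rw [← sub_eq_zero, ← Module.forall_dual_apply_eq_zero_iff K]
  intro φ
  -- the `K`-point
  have hmem : (fun i => φ (Vl U s i)) ∈ EK K Af Rm := by
    rw [mem_EK]
    refine ⟨fun i => φ 1 * ∑ p, (s p) • β p i, fun q => φ (∑ p, (s p : ℂ) * lam p (f1 q) (f2 q)),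
      fun c hc => ?_, fun m hm => ?_, fun i => ?_⟩
    · have h1 := hs1 c hc
      have h2 : ∑ j, c (pr j 0) * (((φ 1 * ∑ p, (s p) • β p j : K)) : ℂ) =
          (φ 1 : ℂ) * ∑ j, c (pr j 0) * ∑ p, (s p : ℂ) * (β p j : ℂ) := by
        rw [Finset.mul_sum]
        apply Finset.sum_congr rfl
        intro j _
        rw [MulMemClass.coe_mul, IntermediateField.coe_sum]
        have h3 : ∀ p, (((s p) • β p j : K) : ℂ) = (s p : ℂ) * (β p j : ℂ) := by
          intro p
          rw [Algebra.smul_def]
          rfl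
        rw [Finset.sum_congr rfl (fun p _ => h3 p)]
        ring
      rw [h2, h1, mul_zero]
    · have h1 := hs2 m hm
      rw [pairing_apply] at h1
      have h2 : ∀ q, (m q : ℂ) * (φ (∑ p, (s p : ℂ) * lam p (f1 q) (f2 q)) : ℂ) =
          ((φ (((m q : ℤ) : ℂ) * ∑ p, (s p : ℂ) * lam p (f1 q) (f2 q)) : K) : ℂ) := by
        intro q
        have h3 : (((m q : ℤ) : ℂ) * ∑ p, (s p : ℂ) * lam p (f1 q) (f2 q)) =
            ((m q : ℤ) : K) • ∑ p, (s p : ℂ) * lam p (f1 q) (f2 q) := by
          rw [Algebra.smul_def]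
          simp
        rw [h3, map_smul, smul_eq_mul, MulMemClass.coe_mul]
        simp
      rw [Finset.sum_congr rfl (fun q _ => h2 q), ← IntermediateField.coe_sum, ← map_sum]
      have h4 : ∑ q, ((m q : ℤ) : ℂ) * ∑ p, (s p : ℂ) * lam p (f1 q) (f2 q) = 0 := by
        rw [← h1]
        apply Finset.sum_congr rfl
        intro q _
        simp only [toQ]
        push_cast
        rfl
      rw [h4, map_zero]
      simp
    · rw [Vl_rep K hrep, map_add]
      have h5 : φ (∑ p, (s p : ℂ) * (β p i : ℂ)) = φ 1 * ∑ p, (s p) • β p i := by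
        have h6 : (∑ p, (s p : ℂ) * (β p i : ℂ)) = (∑ p, (s p) • β p i : K) • (1 : ℂ) := by
          rw [Algebra.smul_def, mul_one]
          have : (algebraMap K ℂ (∑ p, (s p) • β p i)) = ((∑ p, (s p) • β p i : K) : ℂ) := rfl
          rw [this, IntermediateField.coe_sum]
          apply Finset.sum_congr rfl
          intro p _
          rw [Algebra.smul_def]
          rfl
        rw [h6, map_smul, smul_eq_mul, mul_comm]
      rw [h5, map_sum, AddMemClass.coe_add, IntermediateField.coe_sum]
      congr 1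
      apply Finset.sum_congr rfl
      intro h _
      have h7 : om K h * ∑ p, (s p : ℂ) * lam p i h = (bs K h) • ∑ p, (s p : ℂ) * lam p i h := by
        rw [Algebra.smul_def]; rfl
      rw [h7, map_smul, smul_eq_mul, MulMemClass.coe_mul]
      simp only [f1_pr, f2_pr]
      rfl
  have h1 := dual_expand (EK K Af Rm) e b hb hd hmem j
  rw [map_sub, map_sum, h1, sub_eq_zero]
  apply Finset.sum_congr rfl
  intro k _
  have h2 : Vl U s (e k) * (b k j : ℂ) = (b k j) • Vl U s (e k) := by
    rw [Algebra.smul_def, mul_comm]; rfl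
  rw [h2, map_smul, smul_eq_mul, mul_comm]

end EKs

/-- the statement proved by induction on `n` -/
def Claim (n : ℕ) : Prop := ∀ (a : Fin n → ℂ), LinearIndependent K a → ∀ (l : ℕ)
  (v : Fin l → Fin n → ℂ), LinearIndependent K v → (∀ p i, v p i ∈ LtK K) →
    (∀ p, ∑ i, a i * v p i = 0) → l ≤ n * (n - 1)

theorem Q0_bound {n L : ℕ} (Af : Submodule ℂ (Fin (n * dg K) → ℂ))
    (Rm : AddSubgroup (Fin (n * dg K) → ℤ)) {a : Fin n → ℂ} (ha : LinearIndependent K a)
    {U : Fin L → Fin n → ℂ} (hU : LinearIndependent ℚ U) {β : Fin L → Fin n → K}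
    {lam : Fin L → Fin n → Fin (dg K) → ℂ} (hlam : ∀ p i h, lam p i h ∈ Lg)
    (hrep : ∀ p i, U p i = β p i + ∑ h, om K h * lam p i h)
    (horth : ∀ p, ∑ i, a i * U p i = 0)
    (IH : Claim K (finrank K (EK K Af Rm))) :
    finrank ℚ (Q0 (fun p q => lam p (f1 q) (f2 q)) Rm (Sadd Af (fun p i => (β p i : ℂ)))) ≤
      dg K * (finrank K (EK K Af Rm) * (finrank K (EK K Af Rm) - 1)) := by
  classical
  obtain ⟨e, b, hb, hd⟩ := exists_dual (EK K Af Rm)
  set Q := Q0 (fun p q => lam p (f1 q) (f2 q)) Rm (Sadd Af (fun p i => (β p i : ℂ))) with hQ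
  have hexp : ∀ s ∈ Q, ∀ j, Vl U s j = ∑ k, Vl U s (e k) * (b k j : ℂ) := fun s hs j =>
    Q0_expand K Af Rm hrep e b hb hd hs j
  -- the restriction map
  let R : (Fin n → ℂ) →ₗ[ℚ] (Fin (finrank K (EK K Af Rm)) → ℂ) := LinearMap.funLeft ℚ ℂ e
  have hR : ∀ v k, R v k = v (e k) := fun v k => rfl
  let B := Module.finBasis ℚ Q
  let M : Submodule K (Fin (finrank K (EK K Af Rm)) → ℂ) :=
    Submodule.span K (Set.range (fun t => R (Vl U (B t : Fin L → ℚ))))
  have hM : ∀ s : Q, R (Vl U (s : Fin L → ℚ)) ∈ M := by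
    intro s
    have h1 := B.sum_repr s
    have h2 : (s : Fin L → ℚ) = ∑ t, B.repr s t • (B t : Fin L → ℚ) := by
      have h3 := congrArg (fun v : Q => (v : Fin L → ℚ)) h1
      simp only [Submodule.coe_sum, Submodule.coe_smul] at h3
      exact h3.symm
    rw [h2, map_sum, map_sum]
    apply Submodule.sum_mem
    intro t _
    rw [map_smul, map_smul]
    have h4 : B.repr s t • R (Vl U (B t : Fin L → ℚ)) =
        (algebraMap ℚ K (B.repr s t)) • R (Vl U (B t : Fin L → ℚ)) := by
      rw [algebraMap_smul]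
    rw [h4]
    exact M.smul_mem _ (Submodule.subset_span ⟨t, rfl⟩)
  have hfinM : Module.Finite K M := Module.Finite.span_of_finite K (Set.finite_range _)
  have hfinMQ : Module.Finite ℚ M := Module.Finite.trans K M
  -- injectivity
  have h1 : finrank ℚ Q ≤ finrank ℚ M := by
    let f : Q →ₗ[ℚ] M :=
      { toFun := fun s => ⟨R (Vl U (s : Fin L → ℚ)), hM s⟩
        map_add' := by
          intro s s'
          apply Subtype.ext
          simp only [Submodule.coe_add, map_add]
        map_smul' := by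
          intro c s
          apply Subtype.ext
          change R (Vl U (c • (s : Fin L → ℚ))) = c • R (Vl U (s : Fin L → ℚ))
          rw [map_smul, map_smul] }
    apply LinearMap.finrank_le_finrank_of_injective (f := f)
    rw [← LinearMap.ker_eq_bot, LinearMap.ker_eq_bot']
    intro s hs
    have h2 : R (Vl U (s : Fin L → ℚ)) = 0 := congrArg Subtype.val hs
    apply Subtype.ext
    apply Vl_inj hU
    funext j
    rw [hexp s s.2 j]
    simp only [Pi.zero_apply]
    apply Finset.sum_eq_zero
    intro k _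
    have h3 := congrFun h2 k
    rw [hR] at h3
    rw [h3]; simp
  have h2 : finrank ℚ K * finrank K M = finrank ℚ M := Module.finrank_mul_finrank ℚ K M
  -- the induction hypothesis
  have hUmem : ∀ p i, U p i ∈ LtK K := by
    intro p i
    rw [hrep]
    exact LtK_of_rep K (hlam p i)
  have h3 : finrank K M ≤ finrank K (EK K Af Rm) * (finrank K (EK K Af Rm) - 1) := by
    refine IH (fun k => ∑ j, a j * (b k j : ℂ)) ?_ (finrank K M)
      (fun t => (Module.finBasis K M t : Fin (finrank K (EK K Af Rm)) → ℂ)) ?_ ?_ ?_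
    · rw [Fintype.linearIndependent_iff]
      intro c hc
      have e1 : ∑ j, (∑ k, c k * b k j : K) • a j = 0 := by
        rw [← hc]
        have e2 : ∀ j, (∑ k, c k * b k j : K) • a j = ∑ k, c k • (a j * (b k j : ℂ)) := by
          intro j
          rw [Finset.sum_smul]
          apply Finset.sum_congr rfl
          intro k _
          rw [Algebra.smul_def, Algebra.smul_def, map_mul]
          have : algebraMap K ℂ (b k j) = (b k j : ℂ) := rfl
          rw [this]; ring
        rw [Finset.sum_congr rfl (fun j _ => e2 j), Finset.sum_comm]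
        apply Finset.sum_congr rfl
        intro k _
        rw [Finset.smul_sum]
      have e3 := Fintype.linearIndependent_iff.mp ha _ e1
      intro k
      have e4 := e3 (e k)
      rw [Finset.sum_eq_single k] at e4
      · rw [hd, if_pos rfl, mul_one] at e4
        exact e4
      · intro k' _ hk'
        rw [hd, if_neg (Ne.symm hk'), mul_zero]
      · intro h; exact absurd (Finset.mem_univ _) h
    · exact (Module.finBasis K M).linearIndependent.map' M.subtype (Submodule.ker_subtype M)
    · intro t i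
      have e1 : ∀ v ∈ M, v i ∈ LtK K := by
        intro v hv
        refine Submodule.span_induction (p := fun v _ => v i ∈ LtK K) ?_ ?_ ?_ ?_ hv
        · rintro _ ⟨t, rfl⟩
          change Vl U (B t : Fin L → ℚ) (e i) ∈ LtK K
          rw [Vl_apply]
          apply Submodule.sum_mem
          intro p _
          have e2 : (((B t : Fin L → ℚ) p : ℚ) : ℂ) * U p (e i) =
              (algebraMap ℚ K ((B t : Fin L → ℚ) p)) • U p (e i) := by
            rw [Algebra.smul_def]
            rfl
          rw [e2]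
          exact (LtK K).smul_mem _ (hUmem p _)
        · exact (LtK K).zero_mem
        · intro x y _ _ hx hy
          exact (LtK K).add_mem hx hy
        · intro c x _ hx
          exact (LtK K).smul_mem c hx
      exact e1 _ (Module.finBasis K M t).2
    · intro t
      have e1 : ∀ v ∈ M, ∑ k, (∑ j, a j * (b k j : ℂ)) * v k = 0 := by
        intro v hv
        refine Submodule.span_induction
          (p := fun v _ => ∑ k, (∑ j, a j * (b k j : ℂ)) * v k = 0) ?_ ?_ ?_ ?_ hv
        · rintro _ ⟨t, rfl⟩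
          have e2 : ∑ k, (∑ j, a j * (b k j : ℂ)) * R (Vl U (B t : Fin L → ℚ)) k =
              ∑ j, a j * Vl U (B t : Fin L → ℚ) j := by
            have e3 : ∀ j, a j * Vl U (B t : Fin L → ℚ) j =
                ∑ k, (a j * (b k j : ℂ)) * Vl U (B t : Fin L → ℚ) (e k) := by
              intro j
              conv_lhs => rw [hexp _ (B t).2 j]
              rw [Finset.mul_sum]
              apply Finset.sum_congr rfl; intro k _; ring
            rw [Finset.sum_congr rfl (fun j _ => e3 j), Finset.sum_comm]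
            apply Finset.sum_congr rfl
            intro k _
            rw [Finset.sum_mul]
            rfl
          rw [e2]
          simp only [Vl_apply, Finset.mul_sum]
          rw [Finset.sum_comm]
          apply Finset.sum_eq_zero
          intro p _
          have h5 := horth p
          have h6 : ∑ i, a i * ((((B t : Fin L → ℚ) p : ℚ) : ℂ) * U p i) =
              (((B t : Fin L → ℚ) p : ℚ) : ℂ) * ∑ i, a i * U p i := by
            rw [Finset.mul_sum]; apply Finset.sum_congr rfl; intro i _; ring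
          rw [h6, h5, mul_zero]
        · simp
        · intro x y _ _ hx hy
          simp only [Pi.add_apply, mul_add, Finset.sum_add_distrib, hx, hy, add_zero]
        · intro c x _ hx
          have e2 : ∑ k, (∑ j, a j * (b k j : ℂ)) * (c • x) k =
              (c : ℂ) * ∑ k, (∑ j, a j * (b k j : ℂ)) * x k := by
            rw [Finset.mul_sum]
            apply Finset.sum_congr rfl
            intro k _
            rw [Pi.smul_apply, Algebra.smul_def]
            have : algebraMap K ℂ c = (c : ℂ) := rfl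
            rw [this]; ring
          rw [e2, hx, mul_zero]
      exact e1 _ (Module.finBasis K M t).2
  calc finrank ℚ Q ≤ finrank ℚ M := h1
    _ = dg K * finrank K M := h2.symm
    _ ≤ _ := Nat.mul_le_mul_left _ h3

/-- one step of the induction, for rationally independent vectors -/
theorem core {r L : ℕ} (IH : ∀ m ≤ r, Claim K m) {a : Fin (r + 1) → ℂ}
    (ha : LinearIndependent K a) {U : Fin L → Fin (r + 1) → ℂ} (hU : LinearIndependent ℚ U)
    (hmem : ∀ p i, U p i ∈ LtK K) (horth : ∀ p, ∑ i, a i * U p i = 0) :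
    L ≤ dg K * ((r + 1) * r) := by
  have hD1 : 1 ≤ dg K := Nat.one_le_iff_ne_zero.mpr (NeZero.ne (dg K))
  choose β lam hlam hrep using fun p i => LtK_rep K (hmem p i)
  have ha0 : a 0 ≠ 0 := ha.ne_zero 0
  obtain ⟨Af, Rm, -, h1, h2⟩ := obs_out K a ha0 U (fun p i => (β p i : ℂ)) lam
    (fun p i => by
      have h1 : IsAlgebraic ℚ (β p i) := Algebra.IsAlgebraic.isAlgebraic _
      exact h1.algebraMap (A := ℂ)) hlam hrep horth
  have h3 := finrank_EK K Af Rm
  obtain ⟨c, hc⟩ : ∃ c, c = finrank ℂ (Theta (om K) Af Rm) := ⟨_, rfl⟩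
  rw [← hc] at h1 h2 h3
  have hcn : c ≤ r + 1 := by omega
  rcases Nat.lt_or_ge c (r + 1) with hlt | hge
  · -- proper quotient
    have h4 := finrank_Q1_le (fun p q => lam p (f1 q) (f2 q)) Rm (Sadd Af (fun p i => (β p i : ℂ)))
    have h5 := Q0_bound K Af Rm ha hU hlam hrep horth (IH _ (by omega))
    obtain ⟨e, he⟩ : ∃ e, e = finrank K (EK K Af Rm) := ⟨_, rfl⟩
    rw [← he] at h3 h5
    have h6 : L ≤ c * ((r + 1) * dg K) + dg K * (e * (e - 1)) := by omega
    have h7 : c * (r + 1) + e * (e - 1) ≤ (r + 1) * r := by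
      obtain ⟨d, hd⟩ : ∃ d, r = c + d := ⟨r - c, by omega⟩
      have he' : e ≤ d + 1 := by omega
      have h8 : e * (e - 1) ≤ (d + 1) * d := Nat.mul_le_mul he' (by omega)
      subst hd
      have h9 : c * (c + d + 1) + (d + 1) * d ≤ (c + d + 1) * (c + d) := by nlinarith
      omega
    calc L ≤ c * ((r + 1) * dg K) + dg K * (e * (e - 1)) := h6
      _ = dg K * (c * (r + 1) + e * (e - 1)) := by ring
      _ ≤ _ := Nat.mul_le_mul_left _ h7
  · have hceq : c = r + 1 := by omega
    have htop : Theta (om K) Af Rm = ⊤ := by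
      apply Submodule.eq_top_of_finrank_eq
      rw [Module.finrank_fintype_fun_eq_card, Fintype.card_fin, ← hc, hceq]
    have h4 := top_Q1 K Af Rm ha hU hrep horth htop
    have h5 := top_rank K Af Rm htop
    rw [h4, finrank_bot] at h1
    rw [hceq] at h1
    have h6 : (r + 1) * ((r + 1) * dg K) = dg K * ((r + 1) * r) + (r + 1) * dg K := by ring
    omega

/-- **Hyperplane case of the theorem of Waldschmidt and Roy, over a number field.** -/
theorem claim_all : ∀ n, Claim K n := by
  intro n
  induction n using Nat.strong_induction_on with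
  | _ n ih =>
    intro a ha l v hv hmem horth
    rcases n with - | r
    · -- the zero space
      rcases Nat.eq_zero_or_pos l with h | h
      · omega
      · exfalso
        have h1 := hv.ne_zero ⟨0, h⟩
        exact h1 (Subsingleton.elim _ _)
    · have hD1 : 1 ≤ dg K := Nat.one_le_iff_ne_zero.mpr (NeZero.ne (dg K))
      have h1 : LinearIndependent ℚ (fun p : Fin (dg K) × Fin l => bs K p.1 • v p.2) :=
        linearIndependent_smul (bs K).linearIndependent hv
      let E : Fin (dg K * l) ≃ Fin (dg K) × Fin l := finProdFinEquiv.symm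
      have h2 : LinearIndependent ℚ (fun P : Fin (dg K * l) => bs K (E P).1 • v (E P).2) :=
        h1.comp E E.injective
      have h3 := core K (r := r) (fun m hm => ih m (by omega)) ha h2
        (fun P i => (LtK K).smul_mem _ (hmem _ _))
        (fun P => by
          have e1 : ∑ i, a i * (bs K (E P).1 • v (E P).2) i =
              (bs K (E P).1 : ℂ) * ∑ i, a i * v (E P).2 i := by
            rw [Finset.mul_sum]
            apply Finset.sum_congr rfl
            intro i _
            rw [Pi.smul_apply, Algebra.smul_def]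
            have : algebraMap K ℂ (bs K (E P).1) = (bs K (E P).1 : ℂ) := rfl
            rw [this]; ring
          rw [e1, horth, mul_zero])
      have h4 := Nat.le_of_mul_le_mul_left h3 hD1
      simpa using h4

end Pool.Agent.W5h65.EE.Hyp
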