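import Mathlib
import Pool.Agent.W5h65.EE.HypD

/-!
# Relations between linear forms in logarithms with algebraic coefficients
-/

set_option autoImplicit false

namespace Pool.Agent.W5h65.EE.Hyp

open Module Finset
open Pool.Agent.H301R2.SSE (QB mem_QB Lt Lt_rep Lt_one)

theorem li_K_of_QB {M : Type*} [AddCommGroup M] [Module ℂ M] {ι : Type*} [Fintype ι]
    (K : IntermediateField ℚ ℂ) (hK : ∀ x : K, IsAlgebraic ℚ (x : ℂ)) {f : ι → M}
    (hf : LinearIndependent QB f) : LinearIndependent K f := by
  rw [Fintype.linearIndependent_iff] at hf ⊢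
  intro c hc i
  have h1 := hf (fun i => (⟨(c i : ℂ), mem_QB.mpr (hK (c i))⟩ : QB)) (by
    rw [← hc]
    apply Finset.sum_congr rfl
    intro i _
    rfl) i
  have h2 : (c i : ℂ) = 0 := congrArg Subtype.val h1
  exact Subtype.ext h2

/-- **Hyperplane case of the theorem of Waldschmidt and Roy**: if `a_1, …, a_n` are linearly
independent over the algebraic numbers, the relations `∑ a_i λ_i = 0` with `λ_i` linear forms in
logarithms form a space of dimension at most `n (n - 1)`. -/
theorem hyper_QB {n l : ℕ} (a : Fin n → ℂ) (ha : LinearIndependent QB a)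
    (v : Fin l → Fin n → ℂ) (hv : LinearIndependent QB v) (hmem : ∀ p i, v p i ∈ Lt)
    (horth : ∀ p, ∑ i, a i * v p i = 0) : l ≤ n * (n - 1) := by
  classical
  choose S hS h using fun p i => Lt_rep (hmem p i)
  let T : Finset ℂ := Finset.univ.biUnion (fun ij : Fin l × Fin n => S ij.1 ij.2)
  have hT : ∀ a ∈ T, IsAlgebraic ℚ a := by
    intro a ha
    obtain ⟨ij, -, h1⟩ := Finset.mem_biUnion.mp ha
    exact hS _ _ a h1
  let K : IntermediateField ℚ ℂ := IntermediateField.adjoin ℚ (T : Set ℂ)
  have hfin : FiniteDimensional ℚ K := by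
    apply IntermediateField.finiteDimensional_adjoin
    intro x hx
    exact (hT x hx).isIntegral
  have hKalg : ∀ a : K, IsAlgebraic ℚ (a : ℂ) := fun a =>
    (Algebra.IsAlgebraic.isAlgebraic (R := ℚ) a).algebraMap (A := ℂ)
  refine claim_all K n a (li_K_of_QB K hKalg ha) l v (li_K_of_QB K hKalg hv) ?_ horth
  intro p i
  obtain ⟨β, hβ, hlog⟩ := h p i K (fun a ha => by
    apply IntermediateField.subset_adjoin ℚ (T : Set ℂ)
    exact Finset.mem_biUnion.mpr ⟨(p, i), Finset.mem_univ _, ha⟩)
  have h1 : v p i = (⟨β, hβ⟩ : K) • (1 : ℂ) + (v p i - β) := by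
    rw [Algebra.smul_def, mul_one]
    change v p i = β + (v p i - β)
    ring
  rw [h1]
  unfold LtK
  rw [Submodule.span_union]
  exact Submodule.add_mem_sup (Submodule.smul_mem _ _ (Submodule.subset_span rfl)) hlog

/-- the product of a space of complex numbers with a space `L` in which the hyperplane theorem
holds -/
theorem prod_gen {F : Type*} [Field F] [Algebra F ℂ] (L : Submodule F ℂ)
    (hyper : ∀ (n l : ℕ) (a : Fin n → ℂ), LinearIndependent F a → ∀ (v : Fin l → Fin n → ℂ),
      LinearIndependent F v → (∀ p i, v p i ∈ L) → (∀ p, ∑ i, a i * v p i = 0) → l ≤ n * (n - 1))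
    (d l : ℕ) (a : Fin d → ℂ) (ha : LinearIndependent F a) (b : Fin l → ℂ)
    (hb : LinearIndependent F b) (hbL : ∀ j, b j ∈ L) (C : Submodule F ℂ)
    [FiniteDimensional F C] (hC : ∀ i j, a i * b j ∈ C) :
    d * (l + 1) ≤ finrank F C + d ^ 2 := by
  classical
  let φ : (Fin d → Fin l → F) →ₗ[F] C :=
    { toFun := fun c => ⟨∑ i, ∑ j, c i j • (a i * b j), C.sum_mem fun i _ =>
        C.sum_mem fun j _ => C.smul_mem _ (hC i j)⟩
      map_add' := by
        intro c c'
        apply Subtype.ext
        simp only [Pi.add_apply, add_smul, Finset.sum_add_distrib, Submodule.coe_add]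
      map_smul' := by
        intro r c
        apply Subtype.ext
        simp only [Pi.smul_apply, smul_assoc, RingHom.id_apply, Submodule.coe_smul,
          Finset.smul_sum] }
  have h1 := LinearMap.finrank_range_add_finrank_ker φ
  have h2 : finrank F (Fin d → Fin l → F) = d * l := by
    rw [Module.finrank_pi_fintype]
    simp
  have h3 : finrank F (LinearMap.range φ) ≤ finrank F C := Submodule.finrank_le _
  have h4 : finrank F (LinearMap.ker φ) ≤ d * (d - 1) := by
    obtain ⟨c, hc1, hc2⟩ : ∃ c : Fin (finrank F (LinearMap.ker φ)) → (Fin d → Fin l → F),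
        LinearIndependent F c ∧ ∀ t, φ (c t) = 0 := by
      refine ⟨fun t => (Module.finBasis F (LinearMap.ker φ) t : Fin d → Fin l → F), ?_, fun t => ?_⟩
      · exact (Module.finBasis F (LinearMap.ker φ)).linearIndependent.map'
          (LinearMap.ker φ).subtype (Submodule.ker_subtype _)
      · exact (Module.finBasis F (LinearMap.ker φ) t).2
    refine hyper d _ a ha (fun t i => ∑ j, c t i j • b j) ?_ ?_ ?_
    · rw [Fintype.linearIndependent_iff] at hc1 ⊢
      intro g hg
      apply hc1 g
      funext i j
      have e2 := congrFun hg i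
      have e3 : ∑ j, (∑ t, g t * c t i j) • b j = 0 := by
        simp only [Finset.sum_apply, Pi.smul_apply, Pi.zero_apply] at e2
        rw [← e2]
        have e4 : ∀ t, g t • ∑ j, c t i j • b j = ∑ j, (g t * c t i j) • b j := by
          intro t
          rw [Finset.smul_sum]
          apply Finset.sum_congr rfl
          intro j _
          rw [smul_smul]
        rw [Finset.sum_congr rfl (fun t _ => e4 t), Finset.sum_comm]
        apply Finset.sum_congr rfl
        intro j _
        rw [Finset.sum_smul]
      have e5 := Fintype.linearIndependent_iff.mp hb _ e3 j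
      simp only [Finset.sum_apply, Pi.smul_apply, smul_eq_mul, Pi.zero_apply]
      exact e5
    · intro t i
      exact L.sum_mem fun j _ => L.smul_mem _ (hbL j)
    · intro t
      have e2 : ∑ i, ∑ j, c t i j • (a i * b j) = 0 := congrArg Subtype.val (hc2 t)
      rw [← e2]
      apply Finset.sum_congr rfl
      intro i _
      rw [Finset.mul_sum]
      apply Finset.sum_congr rfl
      intro j _
      rw [mul_smul_comm]
  rw [h2] at h1
  rcases Nat.eq_zero_or_pos d with h0 | h0
  · rw [h0]; simp
  · obtain ⟨e, he⟩ : ∃ e, d = e + 1 := ⟨d - 1, by omega⟩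
    subst he
    rw [Nat.add_sub_cancel] at h4
    have e1 : (e + 1) * (l + 1) = (e + 1) * l + (e + 1) := by ring
    have e2 : (e + 1) ^ 2 = (e + 1) * e + (e + 1) := by ring
    omega

/-- the product of a space of complex numbers with a space of linear forms in logarithms -/
theorem prod_dim (d l : ℕ) (a : Fin d → ℂ) (ha : LinearIndependent QB a) (b : Fin l → ℂ)
    (hb : LinearIndependent QB b) (hbL : ∀ j, b j ∈ Lt) (C : Submodule QB ℂ)
    [FiniteDimensional QB C] (hC : ∀ i j, a i * b j ∈ C) :
    d * (l + 1) ≤ finrank QB C + d ^ 2 :=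
  prod_gen Lt (fun _ _ a ha v hv hm ho => hyper_QB a ha v hv hm ho) d l a ha b hb hbL C hC

end Pool.Agent.W5h65.EE.Hyp
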