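import Mathlib
import Pool.Agent.W5h65.EE.HypE
import Pool.Agent.H340R2.LW

/-!
# Applications: spans of exponentials, powers of a transcendental number, products of logarithms
-/

set_option autoImplicit false

namespace Pool.Agent.W5h65.EE.Hyp

open Module Finset Polynomial Pointwise
open Pool.Agent.H301R2.SSE (QB mem_QB Lt Lt_log Lt_one)

/-! ### Exponentials of algebraic numbers -/

/-- the span of the exponentials -/
noncomputable def ExpSpan (B : Finset ℂ) : Submodule QB ℂ := Submodule.span QB (Complex.exp '' B)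

instance finite_ExpSpan (B : Finset ℂ) : FiniteDimensional QB (ExpSpan B) :=
  FiniteDimensional.span_of_finite QB (B.finite_toSet.image _)

theorem finrank_ExpSpan_le (B : Finset ℂ) : finrank QB (ExpSpan B) ≤ B.card := by
  classical
  unfold ExpSpan
  rw [← Finset.coe_image]
  exact (finrank_span_finset_le_card _).trans Finset.card_image_le

theorem exp_li (B : Finset ℂ) (hB : ∀ b ∈ B, IsAlgebraic ℚ b) :
    LinearIndependent QB (fun b : B => Complex.exp b) := by
  classical
  rw [Fintype.linearIndependent_iff]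
  intro g hg b
  have h := Pool.Agent.H340R2.LW.lindemann_weierstrass (Finset.univ : Finset B)
    (fun b => (b : ℂ)) (fun b => (g b : ℂ)) (fun b _ => hB b b.2) (fun b _ => mem_QB.mp (g b).2)
    (fun x _ y _ h => Subtype.ext h) (by
      rw [← hg]
      apply Finset.sum_congr rfl
      intro b _
      rw [Algebra.smul_def]
      rfl) b (Finset.mem_univ _)
  exact Subtype.ext h

theorem exp_li_fin (B : Finset ℂ) (hB : ∀ b ∈ B, IsAlgebraic ℚ b) :
    LinearIndependent QB (fun i : Fin B.card => Complex.exp (B.equivFin.symm i : ℂ)) :=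
  (exp_li B hB).comp B.equivFin.symm B.equivFin.symm.injective

theorem exp_mul_ExpSpan {B D : Finset ℂ} {δ z : ℂ} (hδ : δ ∈ D)
    (hz : z ∈ ExpSpan B) : Complex.exp δ * z ∈ ExpSpan (B + D) := by
  unfold ExpSpan at hz
  refine Submodule.span_induction (p := fun z _ => Complex.exp δ * z ∈ ExpSpan (B + D))
    ?_ ?_ ?_ ?_ hz
  · rintro _ ⟨b, hb, rfl⟩
    rw [← Complex.exp_add]
    apply Submodule.subset_span
    refine ⟨b + δ, Finset.mem_coe.mpr (Finset.add_mem_add hb hδ), ?_⟩
    rw [add_comm]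
  · rw [mul_zero]; exact Submodule.zero_mem _
  · intro x y _ _ hx hy
    rw [mul_add]; exact Submodule.add_mem _ hx hy
  · intro c x _ hx
    rw [mul_smul_comm]; exact Submodule.smul_mem _ c hx

/-- **Sums of exponentials which are linear forms in logarithms.** -/
theorem exp_count (B D : Finset ℂ) (hD : ∀ d ∈ D, IsAlgebraic ℚ d) :
    D.card * (finrank QB (ExpSpan B ⊓ Lt : Submodule QB ℂ) + 1) ≤ (B + D).card + D.card ^ 2 := by
  have hfin : FiniteDimensional QB (ExpSpan B ⊓ Lt : Submodule QB ℂ) :=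
    Submodule.finiteDimensional_of_le inf_le_left
  obtain ⟨b, hb1, hb2⟩ : ∃ b : Fin (finrank QB (ExpSpan B ⊓ Lt : Submodule QB ℂ)) → ℂ,
      LinearIndependent QB b ∧ ∀ t, b t ∈ (ExpSpan B ⊓ Lt : Submodule QB ℂ) :=
    ⟨fun t => (Module.finBasis QB (ExpSpan B ⊓ Lt : Submodule QB ℂ) t : ℂ),
      (Module.finBasis QB (ExpSpan B ⊓ Lt : Submodule QB ℂ)).linearIndependent.map'
        (Submodule.subtype _) (Submodule.ker_subtype _),
      fun t => (Module.finBasis QB (ExpSpan B ⊓ Lt : Submodule QB ℂ) t).2⟩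
  have h1 := prod_dim D.card _ _ (exp_li_fin D hD) b hb1 (fun j => (hb2 j).2) (ExpSpan (B + D))
    (fun i j => exp_mul_ExpSpan (D.equivFin.symm i).2 (hb2 j).1)
  exact h1.trans (Nat.add_le_add_right (finrank_ExpSpan_le _) _)

/-- **Iterated exponentials of algebraic numbers.** -/
theorem exp_exp_count (T D : Finset ℂ) (hT : ∀ b ∈ T, IsAlgebraic ℚ b)
    (hTL : ∀ b ∈ T, Complex.exp b ∈ Lt) (hD : ∀ d ∈ D, IsAlgebraic ℚ d) :
    D.card * (T.card + 1) ≤ (T + D).card + D.card ^ 2 := by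
  have h1 := prod_dim D.card T.card _ (exp_li_fin D hD) _ (exp_li_fin T hT)
    (fun j => hTL _ (T.equivFin.symm j).2) (ExpSpan (T + D))
    (fun i j => exp_mul_ExpSpan (D.equivFin.symm i).2
      (Submodule.subset_span ⟨_, (T.equivFin.symm j).2, rfl⟩))
  exact h1.trans (Nat.add_le_add_right (finrank_ExpSpan_le _) _)

/-- the box -/
noncomputable def box {m : ℕ} (ω : Fin m → ℂ) (N : ℕ) : Finset ℂ :=
  (Fintype.piFinset (fun _ : Fin m => Finset.range N)).image (fun n => ∑ i, (n i : ℂ) * ω i)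

theorem box_inj {m : ℕ} {ω : Fin m → ℂ} (hω : LinearIndependent ℚ ω) :
    Function.Injective (fun n : Fin m → ℕ => ∑ i, (n i : ℂ) * ω i) := by
  intro n n' h
  have h1 : ∑ i, ((n i : ℚ) - (n' i : ℚ)) • ω i = 0 := by
    have h2 : ∑ i, (n i : ℂ) * ω i = ∑ i, (n' i : ℂ) * ω i := h
    rw [← sub_eq_zero, ← Finset.sum_sub_distrib] at h2
    rw [← h2]
    apply Finset.sum_congr rfl
    intro i _
    rw [Rat.smul_def]
    push_cast
    ring
  have h3 := Fintype.linearIndependent_iff.mp hω _ h1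
  funext i
  have h4 := h3 i
  have h5 : (n i : ℚ) = n' i := by linarith
  exact_mod_cast h5

theorem card_box {m : ℕ} {ω : Fin m → ℂ} (hω : LinearIndependent ℚ ω) (N : ℕ) :
    (box ω N).card = N ^ m := by
  unfold box
  rw [Finset.card_image_of_injective _ (box_inj hω), Fintype.card_piFinset]
  simp

theorem box_alg {m : ℕ} {ω : Fin m → ℂ} (hω : ∀ i, IsAlgebraic ℚ (ω i)) (N : ℕ) :
    ∀ b ∈ box ω N, IsAlgebraic ℚ b := by
  intro b hb
  unfold box at hb
  rw [Finset.mem_image] at hb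
  obtain ⟨n, -, rfl⟩ := hb
  rw [← mem_QB]
  apply sum_mem
  intro i _
  refine mul_mem ?_ (mem_QB.mpr (hω i))
  exact natCast_mem QB (n i)

theorem card_box_add {m : ℕ} (ω : Fin m → ℂ) (N s : ℕ) :
    (box ω N + box ω s).card ≤ (N + s) ^ m := by
  have h1 : box ω N + box ω s ⊆
      (Fintype.piFinset (fun _ : Fin m => Finset.range (N + s))).image
        (fun n => ∑ i, (n i : ℂ) * ω i) := by
    intro z hz
    obtain ⟨x, hx, y, hy, rfl⟩ := Finset.mem_add.mp hz
    unfold box at hx hy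
    rw [Finset.mem_image] at hx hy ⊢
    obtain ⟨n, hn, rfl⟩ := hx
    obtain ⟨n', hn', rfl⟩ := hy
    rw [Fintype.mem_piFinset] at hn hn'
    refine ⟨n + n', ?_, ?_⟩
    · rw [Fintype.mem_piFinset]
      intro i
      have h2 := hn i
      have h3 := hn' i
      rw [Finset.mem_range] at h2 h3 ⊢
      simp only [Pi.add_apply]
      omega
    · rw [← Finset.sum_add_distrib]
      apply Finset.sum_congr rfl
      intro i _
      simp only [Pi.add_apply]
      push_cast
      ring
  refine (Finset.card_le_card h1).trans (Finset.card_image_le.trans ?_)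
  rw [Fintype.card_piFinset]
  simp

theorem box_count {m : ℕ} {ω : Fin m → ℂ} (hω : LinearIndependent ℚ ω)
    (halg : ∀ i, IsAlgebraic ℚ (ω i)) (N s : ℕ) (hs : 1 ≤ s) (hN : N ≤ s ^ 2) :
    finrank QB (ExpSpan (box ω N) ⊓ Lt : Submodule QB ℂ) + 1 ≤ (s + 1) ^ m + s ^ m := by
  have h1 := exp_count (box ω N) (box ω s) (box_alg halg s)
  rw [card_box hω s] at h1
  have h2 := card_box_add ω N s
  have h3 : (N + s) ^ m ≤ (s * (s + 1)) ^ m := by
    apply Nat.pow_le_pow_left
    have : s * (s + 1) = s ^ 2 + s := by ring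
    omega
  rw [mul_pow] at h3
  have h4 : (s ^ m) ^ 2 = s ^ m * s ^ m := by ring
  have h5 : s ^ m * (finrank QB (ExpSpan (box ω N) ⊓ Lt : Submodule QB ℂ) + 1) ≤
      s ^ m * ((s + 1) ^ m + s ^ m) := by
    rw [mul_add (s ^ m) ((s + 1) ^ m)]
    omega
  exact Nat.le_of_mul_le_mul_left h5 (Nat.pow_pos hs)

theorem box_count_T {m : ℕ} {ω : Fin m → ℂ} (hω : LinearIndependent ℚ ω)
    (halg : ∀ i, IsAlgebraic ℚ (ω i)) (N s : ℕ) (hs : 1 ≤ s) (hN : N ≤ s ^ 2) (T : Finset ℂ)
    (hT : T ⊆ box ω N) (hTL : ∀ b ∈ T, Complex.exp b ∈ Lt) :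
    T.card + 1 ≤ (s + 1) ^ m + s ^ m := by
  have h1 := exp_exp_count T (box ω s) (fun b hb => box_alg halg N b (hT hb)) hTL
    (box_alg halg s)
  rw [card_box hω s] at h1
  have h2 := card_box_add ω N s
  have h2' : (T + box ω s).card ≤ (box ω N + box ω s).card :=
    Finset.card_le_card (Finset.add_subset_add_right hT)
  have h3 : (N + s) ^ m ≤ (s * (s + 1)) ^ m := by
    apply Nat.pow_le_pow_left
    have : s * (s + 1) = s ^ 2 + s := by ring
    omega
  rw [mul_pow] at h3
  have h4 : (s ^ m) ^ 2 = s ^ m * s ^ m := by ring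
  have h5 : s ^ m * (T.card + 1) ≤ s ^ m * ((s + 1) ^ m + s ^ m) := by
    rw [mul_add (s ^ m) ((s + 1) ^ m)]
    omega
  exact Nat.le_of_mul_le_mul_left h5 (Nat.pow_pos hs)

/-! ### Powers of a transcendental number -/

/-- the span of the powers -/
noncomputable def PowSpan (ξ : ℂ) (N : ℕ) : Submodule QB ℂ :=
  Submodule.span QB {z : ℂ | ∃ j : ℕ, j ≤ N ∧ z = ξ ^ j}

theorem PowSpan_eq (ξ : ℂ) (N : ℕ) : PowSpan ξ N =
    Submodule.span QB (((Finset.range (N + 1)).image (fun j => ξ ^ j) : Finset ℂ) : Set ℂ) := by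
  unfold PowSpan
  congr 1
  ext z
  simp only [Set.mem_setOf_eq, Finset.coe_image, Set.mem_image, Finset.coe_range, Set.mem_Iio]
  constructor
  · rintro ⟨j, hj, rfl⟩; exact ⟨j, by omega, rfl⟩
  · rintro ⟨j, hj, rfl⟩; exact ⟨j, by omega, rfl⟩

instance finite_PowSpan (ξ : ℂ) (N : ℕ) : FiniteDimensional QB (PowSpan ξ N) := by
  rw [PowSpan_eq]
  exact FiniteDimensional.span_finset QB _

theorem finrank_PowSpan_le (ξ : ℂ) (N : ℕ) : finrank QB (PowSpan ξ N) ≤ N + 1 := by
  rw [PowSpan_eq]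
  refine (finrank_span_finset_le_card _).trans (Finset.card_image_le.trans ?_)
  rw [Finset.card_range]

theorem pow_mul_PowSpan {ξ z : ℂ} {N i d : ℕ} (hi : i < d + 1) (hz : z ∈ PowSpan ξ N) :
    ξ ^ i * z ∈ PowSpan ξ (N + d) := by
  unfold PowSpan at hz
  refine Submodule.span_induction (p := fun z _ => ξ ^ i * z ∈ PowSpan ξ (N + d))
    ?_ ?_ ?_ ?_ hz
  · rintro _ ⟨j, hj, rfl⟩
    rw [← pow_add]
    exact Submodule.subset_span ⟨i + j, by omega, rfl⟩
  · rw [mul_zero]; exact Submodule.zero_mem _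
  · intro x y _ _ hx hy
    rw [mul_add]; exact Submodule.add_mem _ hx hy
  · intro c x _ hx
    rw [mul_smul_comm]; exact Submodule.smul_mem _ c hx

theorem transc_QB' {z : ℂ} (h : Transcendental ℚ z) : Transcendental QB z := by
  intro h1
  have : Algebra.IsAlgebraic ℚ QB := ⟨fun x => by
    have := mem_QB.mp x.2
    rwa [← isAlgebraic_algebraMap_iff (algebraMap QB ℂ).injective]⟩
  exact h (h1.restrictScalars ℚ)

theorem pow_li {ξ : ℂ} (hξ : Transcendental ℚ ξ) (d : ℕ) :
    LinearIndependent QB (fun i : Fin d => ξ ^ (i : ℕ)) := by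
  have h1 : LinearIndependent QB (fun i : ℕ => ξ ^ i) := by
    have := (transcendental_iff_injective.mp (transc_QB' hξ))
    have h2 : LinearIndependent QB (fun i : ℕ => (X ^ i : QB[X])) := by
      have := (Polynomial.basisMonomials QB).linearIndependent
      simpa [Polynomial.coe_basisMonomials, ← Polynomial.X_pow_eq_monomial] using this
    have h3 := h2.map' (aeval ξ : QB[X] →ₐ[QB] ℂ).toLinearMap
      (LinearMap.ker_eq_bot.mpr this)
    have h4 : (⇑(aeval ξ : QB[X] →ₐ[QB] ℂ).toLinearMap ∘ fun i : ℕ => (X ^ i : QB[X])) =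
        fun i : ℕ => ξ ^ i := by
      funext i
      simp
    rwa [h4] at h3
  exact h1.comp (fun i : Fin d => (i : ℕ)) Fin.val_injective

theorem sq_of_all {k N : ℕ} (h : ∀ d, 1 ≤ d → d * (k + 1) ≤ N + d + d ^ 2) :
    k ^ 2 ≤ 4 * N + 1 := by
  rcases Nat.even_or_odd' k with ⟨d, hd | hd⟩
  · rcases Nat.eq_zero_or_pos d with h0 | h0
    · subst hd; rw [h0]; simp
    · have h1 := h d h0
      subst hd
      nlinarith
  · rcases Nat.eq_zero_or_pos d with h0 | h0
    · subst hd; rw [h0]; simp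
    · have h1 := h d h0
      subst hd
      nlinarith

/-- **Powers of a transcendental number and linear forms in logarithms.** -/
theorem pow_count {ξ : ℂ} (hξ : Transcendental ℚ ξ) (N : ℕ) (U : Submodule QB ℂ)
    (hU : U ≤ PowSpan ξ N) : (finrank QB (U ⊓ Lt : Submodule QB ℂ)) ^ 2 ≤ 4 * N + 1 := by
  have hfin : FiniteDimensional QB (U ⊓ Lt : Submodule QB ℂ) :=
    Submodule.finiteDimensional_of_le (inf_le_left.trans hU)
  obtain ⟨b, hb1, hb2⟩ : ∃ b : Fin (finrank QB (U ⊓ Lt : Submodule QB ℂ)) → ℂ,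
      LinearIndependent QB b ∧ ∀ t, b t ∈ (U ⊓ Lt : Submodule QB ℂ) :=
    ⟨fun t => (Module.finBasis QB (U ⊓ Lt : Submodule QB ℂ) t : ℂ),
      (Module.finBasis QB (U ⊓ Lt : Submodule QB ℂ)).linearIndependent.map'
        (Submodule.subtype _) (Submodule.ker_subtype _),
      fun t => (Module.finBasis QB (U ⊓ Lt : Submodule QB ℂ) t).2⟩
  apply sq_of_all
  intro d hd
  have h1 := prod_dim d _ _ (pow_li hξ d) b hb1 (fun j => (hb2 j).2) (PowSpan ξ (N + (d - 1)))
    (fun i j => pow_mul_PowSpan (by have := i.2; omega) (hU (hb2 j).1))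
  have h2 := finrank_PowSpan_le ξ (N + (d - 1))
  omega

/-! ### Products of logarithms -/

theorem sq_of_all2 {l c : ℕ} (h : ∀ d, 1 ≤ d → d ≤ l → d * (l + 1) ≤ c + d ^ 2) :
    (l + 1) ^ 2 ≤ 4 * c + 1 := by
  rcases Nat.even_or_odd' l with ⟨d, hd | hd⟩
  · rcases Nat.eq_zero_or_pos d with h0 | h0
    · subst hd; rw [h0]; simp
    · have h1 := h d h0 (by omega)
      subst hd
      nlinarith
  · have h1 := h (d + 1) (by omega) (by omega)
    subst hd
    nlinarith

/-- **Products of linear forms in logarithms.** -/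
theorem quad_count {l : ℕ} (lam : Fin l → ℂ) (hli : LinearIndependent QB lam)
    (hL : ∀ i, lam i ∈ Lt) :
    (l + 1) ^ 2 ≤ 4 * finrank QB (Submodule.span QB {z : ℂ | ∃ i j, z = lam i * lam j}) + 1 := by
  have hfin : FiniteDimensional QB (Submodule.span QB {z : ℂ | ∃ i j, z = lam i * lam j}) := by
    apply FiniteDimensional.span_of_finite
    have : {z : ℂ | ∃ i j, z = lam i * lam j} = Set.range (fun p : Fin l × Fin l => lam p.1 * lam p.2) := by
      ext z
      constructor
      · rintro ⟨i, j, rfl⟩; exact ⟨(i, j), rfl⟩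
      · rintro ⟨p, rfl⟩; exact ⟨p.1, p.2, rfl⟩
    rw [this]
    exact Set.finite_range _
  apply sq_of_all2
  intro d _ hd
  exact prod_dim d l (fun i => lam (Fin.castLE hd i)) (hli.comp _ (Fin.castLE_injective hd)) lam hli
    hL _ (fun i j => Submodule.subset_span ⟨_, _, rfl⟩)

end Pool.Agent.W5h65.EE.Hyp
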