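import Mathlib
import Pool.Agent.W5h65.EE.HypF

/-!
# Products of logarithms modulo linear forms in logarithms, even zeta values
-/

set_option autoImplicit false

namespace Pool.Agent.W5h65.EE.Hyp

open Module Finset Polynomial
open Pool.Agent.H301R2.SSE (QB mem_QB Lt Lt_log Lt_one)

/-- products modulo the space of linear forms -/
theorem prod_mod_gen {F : Type*} [Field F] [Algebra F ℂ] (L : Submodule F ℂ)
    (hyper : ∀ (n l : ℕ) (a : Fin n → ℂ), LinearIndependent F a → ∀ (v : Fin l → Fin n → ℂ),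
      LinearIndependent F v → (∀ p i, v p i ∈ L) → (∀ p, ∑ i, a i * v p i = 0) → l ≤ n * (n - 1))
    (d l : ℕ) (a : Fin d → ℂ) (ha : LinearIndependent F (Fin.cons 1 a : Fin (d + 1) → ℂ))
    (b : Fin l → ℂ) (hb : LinearIndependent F b) (hbL : ∀ j, b j ∈ L) (C : Submodule F (ℂ ⧸ L))
    [FiniteDimensional F C] (hC : ∀ i j, L.mkQ (a i * b j) ∈ C) :
    d * l ≤ finrank F C + (d + 1) * d := by
  classical
  let φ : (Fin d → Fin l → F) →ₗ[F] C :=
    { toFun := fun c => ⟨∑ i, ∑ j, c i j • L.mkQ (a i * b j), C.sum_mem fun i _ =>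
        C.sum_mem fun j _ => C.smul_mem _ (hC i j)⟩
      map_add' := by
        intro c c'
        apply Subtype.ext
        simp only [Pi.add_apply, add_smul, Finset.sum_add_distrib, Submodule.coe_add]
      map_smul' := by
        intro r c
        apply Subtype.ext
        simp only [Pi.smul_apply, smul_assoc, RingHom.id_apply, Submodule.coe_smul,
          Finset.smul_sum] }
  have h1 := LinearMap.finrank_range_add_finrank_ker φ
  have h2 : finrank F (Fin d → Fin l → F) = d * l := by
    rw [Module.finrank_pi_fintype]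
    simp
  have h3 : finrank F (LinearMap.range φ) ≤ finrank F C := Submodule.finrank_le _
  have h4 : finrank F (LinearMap.ker φ) ≤ (d + 1) * d := by
    obtain ⟨c, hc1, hc2⟩ : ∃ c : Fin (finrank F (LinearMap.ker φ)) → (Fin d → Fin l → F),
        LinearIndependent F c ∧ ∀ t, φ (c t) = 0 := by
      refine ⟨fun t => (Module.finBasis F (LinearMap.ker φ) t : Fin d → Fin l → F), ?_, fun t => ?_⟩
      · exact (Module.finBasis F (LinearMap.ker φ)).linearIndependent.map'
          (LinearMap.ker φ).subtype (Submodule.ker_subtype _)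
      · exact (Module.finBasis F (LinearMap.ker φ) t).2
    have hin : ∀ t, ∑ i, ∑ j, c t i j • (a i * b j) ∈ L := by
      intro t
      have e1 : ∑ i, ∑ j, c t i j • L.mkQ (a i * b j) = 0 := congrArg Subtype.val (hc2 t)
      have e2 : L.mkQ (∑ i, ∑ j, c t i j • (a i * b j)) = 0 := by
        rw [← e1]
        simp only [map_sum, map_smul]
      rwa [← LinearMap.mem_ker, Submodule.ker_mkQ] at e2
    have h5 := hyper (d + 1) _ (Fin.cons 1 a) ha
      (fun t => Fin.cons (-(∑ i, ∑ j, c t i j • (a i * b j))) (fun i => ∑ j, c t i j • b j)) ?_ ?_ ?_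
    · simpa using h5
    · rw [Fintype.linearIndependent_iff] at hc1 ⊢
      intro g hg
      apply hc1 g
      funext i j
      have e2 := congrFun hg i.succ
      have e3 : ∑ j, (∑ t, g t * c t i j) • b j = 0 := by
        simp only [Finset.sum_apply, Pi.smul_apply, Pi.zero_apply, Fin.cons_succ] at e2
        rw [← e2]
        have e4 : ∀ t, g t • ∑ j, c t i j • b j = ∑ j, (g t * c t i j) • b j := by
          intro t
          rw [Finset.smul_sum]
          apply Finset.sum_congr rfl
          intro j _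
          rw [smul_smul]
        rw [Finset.sum_congr rfl (fun t _ => e4 t), Finset.sum_comm]
        apply Finset.sum_congr rfl
        intro j _
        rw [Finset.sum_smul]
      have e5 := Fintype.linearIndependent_iff.mp hb _ e3 j
      simp only [Finset.sum_apply, Pi.smul_apply, smul_eq_mul, Pi.zero_apply]
      exact e5
    · intro t i
      refine Fin.cases ?_ (fun i' => ?_) i
      · rw [Fin.cons_zero]; exact L.neg_mem (hin t)
      · rw [Fin.cons_succ]; exact L.sum_mem fun j _ => L.smul_mem _ (hbL j)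
    · intro t
      rw [Fin.sum_univ_succ, Fin.cons_zero, Fin.cons_zero]
      simp only [Fin.cons_succ]
      rw [one_mul, neg_add_eq_zero]
      apply Finset.sum_congr rfl
      intro i _
      rw [Finset.mul_sum]
      apply Finset.sum_congr rfl
      intro j _
      rw [mul_smul_comm]
  rw [h2] at h1
  omega

theorem prod_mod (d l : ℕ) (a : Fin d → ℂ)
    (ha : LinearIndependent QB (Fin.cons 1 a : Fin (d + 1) → ℂ)) (b : Fin l → ℂ)
    (hb : LinearIndependent QB b) (hbL : ∀ j, b j ∈ Lt) (C : Submodule QB (ℂ ⧸ Lt))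
    [FiniteDimensional QB C] (hC : ∀ i j, Lt.mkQ (a i * b j) ∈ C) :
    d * l ≤ finrank QB C + (d + 1) * d :=
  prod_mod_gen Lt (fun _ _ a ha v hv hm ho => hyper_QB a ha v hv hm ho) d l a ha b hb hbL C hC

theorem sq_of_all3 {l c : ℕ} (h : ∀ d, d ≤ l → d * l ≤ c + (d + 1) * d) :
    l ^ 2 ≤ 4 * c + 2 * l := by
  rcases Nat.even_or_odd' l with ⟨d, hd | hd⟩
  · have h1 := h d (by omega)
    subst hd
    nlinarith
  · have h1 := h d (by omega)
    subst hd
    nlinarith

/-- products of independent elements -/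
def prods {l : ℕ} (lam : Fin l → ℂ) : Set ℂ := {z : ℂ | ∃ i j, z = lam i * lam j}

theorem prods_finite {l : ℕ} (lam : Fin l → ℂ) : (prods lam).Finite := by
  have : prods lam = Set.range (fun p : Fin l × Fin l => lam p.1 * lam p.2) := by
    ext z
    constructor
    · rintro ⟨i, j, rfl⟩; exact ⟨(i, j), rfl⟩
    · rintro ⟨p, rfl⟩; exact ⟨p.1, p.2, rfl⟩
  rw [this]
  exact Set.finite_range _

/-- **Products of logarithms modulo linear forms in logarithms.** -/
theorem quad_mod {l : ℕ} (lam : Fin l → ℂ)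
    (hli : LinearIndependent QB (Fin.cons 1 lam : Fin (l + 1) → ℂ)) (hL : ∀ i, lam i ∈ Lt) :
    l ^ 2 ≤ 4 * finrank QB ((Submodule.span QB {z : ℂ | ∃ i j, z = lam i * lam j}).map Lt.mkQ) +
      2 * l := by
  have hfin : FiniteDimensional QB (Submodule.span QB {z : ℂ | ∃ i j, z = lam i * lam j}) :=
    FiniteDimensional.span_of_finite QB (prods_finite lam)
  have hli' : LinearIndependent QB lam := by
    have := hli.comp Fin.succ (Fin.succ_injective _)
    have h1 : (Fin.cons 1 lam : Fin (l + 1) → ℂ) ∘ Fin.succ = lam := by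
      funext i; simp
    rwa [h1] at this
  apply sq_of_all3
  intro d hd
  refine prod_mod d l (fun i => lam (Fin.castLE hd i)) ?_ lam hli' hL _ (fun i j =>
    Submodule.mem_map_of_mem (Submodule.subset_span ⟨_, _, rfl⟩))
  have h2 := hli.comp (Fin.castLE (Nat.succ_le_succ hd)) (Fin.castLE_injective _)
  have h3 : (Fin.cons 1 lam : Fin (l + 1) → ℂ) ∘ (Fin.castLE (Nat.succ_le_succ hd)) =
      (Fin.cons 1 (fun i => lam (Fin.castLE hd i)) : Fin (d + 1) → ℂ) := by
    funext i
    refine Fin.cases ?_ (fun i' => ?_) i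
    · simp
    · simp only [Function.comp, Fin.cons_succ]
      have : Fin.castLE (Nat.succ_le_succ hd) i'.succ = (Fin.castLE hd i').succ := by
        ext; simp
      rw [this, Fin.cons_succ]
  rwa [h3] at h2

/-! ### Even zeta values -/

theorem zeta_mem (N j : ℕ) (hj : j ≤ N) :
    riemannZeta (2 * j) ∈ PowSpan ((Real.pi : ℂ) ^ 2) N := by
  have hpow : ((Real.pi : ℂ) ^ 2) ^ j ∈ PowSpan ((Real.pi : ℂ) ^ 2) N :=
    Submodule.subset_span ⟨j, hj, rfl⟩
  obtain ⟨q, hq⟩ : ∃ q : ℚ, riemannZeta (2 * j) = (q : ℂ) * ((Real.pi : ℂ) ^ 2) ^ j := by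
    rcases Nat.eq_zero_or_pos j with h0 | h0
    · subst h0
      refine ⟨-1 / 2, ?_⟩
      rw [Nat.cast_zero, mul_zero, riemannZeta_zero]
      push_cast
      ring
    · refine ⟨(-1) ^ (j + 1) * 2 ^ (2 * j - 1) * _root_.bernoulli (2 * j) / (2 * j).factorial, ?_⟩
      rw [riemannZeta_two_mul_nat (by omega)]
      push_cast
      rw [← pow_mul]
      ring
  rw [hq]
  have h1 : (q : ℂ) * ((Real.pi : ℂ) ^ 2) ^ j =
      (⟨(q : ℂ), mem_QB.mpr (isAlgebraic_algebraMap q)⟩ : QB) • ((Real.pi : ℂ) ^ 2) ^ j := by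
    rw [Algebra.smul_def]; rfl
  rw [h1]
  exact Submodule.smul_mem _ _ hpow

theorem pi_sq_transc : Transcendental ℚ ((Real.pi : ℂ) ^ 2) := by
  intro h
  exact Pool.Agent.H340R2.LW.transcendental_pi_complex (h.of_pow (by norm_num))

theorem zeta_count (N : ℕ) :
    (finrank QB (Submodule.span QB {z : ℂ | ∃ j : ℕ, j ≤ N ∧ z = riemannZeta (2 * j)} ⊓ Lt :
      Submodule QB ℂ)) ^ 2 ≤ 4 * N + 1 := by
  apply pow_count pi_sq_transc N
  rw [Submodule.span_le]
  rintro _ ⟨j, hj, rfl⟩
  exact zeta_mem N j hj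

end Pool.Agent.W5h65.EE.Hyp
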