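import Mathlib
import Pool.Agent.W5h65.EE.HypF
import Pool.Agent.H297R2.InBakerThm

/-!
# Polynomials in `e` whose exponentials are algebraic
-/

set_option autoImplicit false

namespace Pool.Agent.W5h65.EE.Hyp

open Module Polynomial
open Pool.Agent.H301R2.SSE (QB mem_QB Lt Lt_log Lt_one)
open Pool.Agent.H340R2.LW (transcendental_exp_one_complex)

theorem aeval_mem_PowSpan (ξ : ℂ) (N : ℕ) (p : QB[X]) (hp : p.natDegree ≤ N) :
    aeval ξ p ∈ PowSpan ξ N := by
  rw [Polynomial.aeval_eq_sum_range' (Nat.lt_succ_of_le hp)]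
  apply Submodule.sum_mem
  intro j hj
  apply Submodule.smul_mem
  apply Submodule.subset_span
  exact ⟨j, by rw [Finset.mem_range] at hj; omega, rfl⟩

/-- rational independence and algebraic exponentials give independence over the algebraic
numbers (Baker) -/
theorem li_QB_of_baker {k : ℕ} (P : Fin k → QB[X]) (hP : LinearIndependent ℚ P)
    (hA : ∀ i, IsAlgebraic ℚ (Complex.exp (aeval (Complex.exp 1) (P i)))) :
    LinearIndependent QB P := by
  have hinj : Function.Injective (aeval (Complex.exp 1) : QB[X] →ₐ[QB] ℂ) :=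
    transcendental_iff_injective.mp (transc_QB' transcendental_exp_one_complex)
  have hli : LinearIndependent ℚ (fun i => aeval (Complex.exp 1) (P i)) := by
    rw [Fintype.linearIndependent_iff] at hP ⊢
    intro g hg
    apply hP g
    apply hinj
    rw [map_zero, ← hg, map_sum]
    apply Finset.sum_congr rfl
    intro i _
    have h1 : g i • P i = C (algebraMap ℚ QB (g i)) * P i := by
      rw [← smul_eq_C_mul, algebraMap_smul]
    rw [h1, map_mul, aeval_C, Rat.smul_def]
    rfl
  rw [Fintype.linearIndependent_iff]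
  intro c hc
  have hb := Pool.Agent.H297R2.baker_inhom (fun i => aeval (Complex.exp 1) (P i)) hA hli 0
    isAlgebraic_zero (fun i => (c i : ℂ)) (fun i => mem_QB.mp (c i).2) (by
      rw [zero_add]
      have h2 := congrArg (aeval (Complex.exp 1) : QB[X] →ₐ[QB] ℂ) hc
      rw [map_zero, map_sum] at h2
      rw [← h2]
      apply Finset.sum_congr rfl
      intro i _
      rw [map_smul, Algebra.smul_def]
      rfl)
  intro i
  exact Subtype.ext (hb.2 i)

/-- **Polynomials in `e` with algebraic exponentials.** -/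
theorem poly_alg_sq (N k : ℕ) (P : Fin k → QB[X]) (hP : LinearIndependent ℚ P)
    (hN : ∀ i, (P i).natDegree ≤ N) (h0 : ∀ i, (P i).coeff 0 = 0)
    (hA : ∀ i, IsAlgebraic ℚ (Complex.exp (aeval (Complex.exp 1) (P i)))) :
    (k + 1) ^ 2 ≤ 4 * N + 1 := by
  have hP' := li_QB_of_baker P hP hA
  have hinj : Function.Injective (aeval (Complex.exp 1) : QB[X] →ₐ[QB] ℂ) :=
    transcendental_iff_injective.mp (transc_QB' transcendental_exp_one_complex)
  have hli : LinearIndependent QB (Fin.cons (1 : QB[X]) P : Fin (k + 1) → QB[X]) := by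
    rw [linearIndependent_finCons]
    refine ⟨hP', fun hmem => ?_⟩
    have h7 : Submodule.span QB (Set.range P) ≤ LinearMap.ker (lcoeff QB 0) := by
      rw [Submodule.span_le]
      rintro _ ⟨i, rfl⟩
      exact h0 i
    have h8 := h7 hmem
    rw [LinearMap.mem_ker, lcoeff_apply, coeff_one_zero] at h8
    exact one_ne_zero h8
  have hli2 := hli.map' (aeval (Complex.exp 1) : QB[X] →ₐ[QB] ℂ).toLinearMap
    (LinearMap.ker_eq_bot.mpr hinj)
  have hmem : ∀ i, ((aeval (Complex.exp 1) : QB[X] →ₐ[QB] ℂ).toLinearMap ∘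
      (Fin.cons (1 : QB[X]) P : Fin (k + 1) → QB[X])) i ∈
      (PowSpan (Complex.exp 1) N ⊓ Lt : Submodule QB ℂ) := by
    intro i
    refine Fin.cases ?_ (fun j => ?_) i
    · have e1 : ((aeval (Complex.exp 1) : QB[X] →ₐ[QB] ℂ).toLinearMap ∘
          (Fin.cons (1 : QB[X]) P : Fin (k + 1) → QB[X])) 0 = 1 := by
        simp
      rw [e1]
      exact ⟨Submodule.subset_span ⟨0, by omega, by simp⟩, Lt_one⟩
    · have e1 : ((aeval (Complex.exp 1) : QB[X] →ₐ[QB] ℂ).toLinearMap ∘
          (Fin.cons (1 : QB[X]) P : Fin (k + 1) → QB[X])) j.succ = aeval (Complex.exp 1) (P j) := by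
        simp
      rw [e1]
      exact ⟨aeval_mem_PowSpan _ N _ (hN j), Lt_log (hA j)⟩
  have hfin : FiniteDimensional QB (PowSpan (Complex.exp 1) N ⊓ Lt : Submodule QB ℂ) :=
    Submodule.finiteDimensional_of_le inf_le_left
  have h1 : k + 1 ≤ finrank QB (PowSpan (Complex.exp 1) N ⊓ Lt : Submodule QB ℂ) := by
    have h2 : LinearIndependent QB (fun i => (⟨_, hmem i⟩ :
        (PowSpan (Complex.exp 1) N ⊓ Lt : Submodule QB ℂ))) := by
      apply LinearIndependent.of_comp (Submodule.subtype _)
      exact hli2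
    simpa using h2.fintype_card_le_finrank
  have h3 := pow_count transcendental_exp_one_complex N (PowSpan (Complex.exp 1) N) le_rfl
  exact (Nat.pow_le_pow_left h1 2).trans h3

end Pool.Agent.W5h65.EE.Hyp
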