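import Mathlib

/-!
# Linear algebra behind the rank statements on iterated exponentials
-/

set_option autoImplicit false

namespace Pool.Agent.W5h65.EE

open Module Polynomial

theorem exp_rat_mul_alg {k : Type*} [Field k] [Algebra k ℂ] (c : ℚ) {z : ℂ}
    (hz : IsAlgebraic k (Complex.exp z)) : IsAlgebraic k (Complex.exp ((c : ℂ) * z)) := by
  have h1 : Complex.exp ((c : ℂ) * z) ^ c.den = Complex.exp z ^ c.num := by
    rw [← Complex.exp_nat_mul, ← Complex.exp_int_mul]
    congr 1
    rw [← mul_assoc]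
    congr 1
    have h2 : (c.den : ℚ) * c = c.num := by
      rw [mul_comm]; exact Rat.mul_den_eq_num c
    exact_mod_cast h2
  have h3 : IsAlgebraic k (Complex.exp z ^ c.num) := by
    rcases Int.eq_nat_or_neg c.num with ⟨n, hn | hn⟩
    · rw [hn, zpow_natCast]; exact hz.pow n
    · rw [hn, zpow_neg, zpow_natCast]; exact (hz.pow n).inv
  rw [← h1] at h3
  exact h3.of_pow c.den_pos

/-- the `ℚ`-space of all `z` such that `e ^ z` is algebraic over `k` -/
def expAlg (k : Type*) [Field k] [Algebra k ℂ] : Submodule ℚ ℂ where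
  carrier := {z | IsAlgebraic k (Complex.exp z)}
  add_mem' := by
    intro a b ha hb
    simp only [Set.mem_setOf_eq, Complex.exp_add] at *
    exact ha.mul hb
  zero_mem' := by
    simp only [Set.mem_setOf_eq, Complex.exp_zero]
    exact isAlgebraic_one
  smul_mem' := by
    intro c z hz
    simp only [Set.mem_setOf_eq] at *
    rw [Rat.smul_def]
    exact exp_rat_mul_alg c hz

theorem mem_expAlg {k : Type*} [Field k] [Algebra k ℂ] {z : ℂ} :
    z ∈ expAlg k ↔ IsAlgebraic k (Complex.exp z) := Iff.rfl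

/-- multiplication by `ξ` -/
noncomputable abbrev mulL (K : Type*) [Field K] [Algebra K ℂ] (ξ : ℂ) : ℂ →ₗ[K] ℂ :=
  LinearMap.mulLeft K ξ

theorem mulL_ker {K : Type*} [Field K] [Algebra K ℂ] {ξ : ℂ} (hξ : ξ ≠ 0) :
    LinearMap.ker (mulL K ξ) = ⊥ := by
  rw [LinearMap.ker_eq_bot']
  intro m hm
  simp only [mulL, LinearMap.mulLeft_apply] at hm
  exact (mul_eq_zero.mp hm).resolve_left hξ

theorem dim_count {K : Type*} [Field K] [Algebra K ℂ] (A B : Submodule K ℂ) {ξ : ℂ} (hξ : ξ ≠ 0)
    (U₁ U₂ : Submodule K ℂ) [FiniteDimensional K U₁] [FiniteDimensional K U₂] (n : ℕ)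
    (h : ∀ f : Fin (n + 1) → ℂ, LinearIndependent K f → (∀ i, ξ * f i ∈ U₁) →
      (∀ i, ξ * f i ∈ A) → (∀ i, f i ∈ U₂) → (∀ i, f i ∈ B) → False) :
    finrank K (U₁ ⊓ A : Submodule K ℂ) + finrank K (U₂ ⊓ B : Submodule K ℂ) ≤
      finrank K (U₁ ⊔ U₂.map (mulL K ξ) : Submodule K ℂ) + n := by
  set S : Submodule K ℂ := U₁ ⊓ A with hS
  set T : Submodule K ℂ := (U₂ ⊓ B).map (mulL K ξ) with hT
  have hinj : Function.Injective (mulL K ξ) := LinearMap.ker_eq_bot.mp (mulL_ker hξ)
  haveI : FiniteDimensional K (U₂ ⊓ B : Submodule K ℂ) :=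
    Submodule.finiteDimensional_of_le inf_le_left
  haveI : FiniteDimensional K S := Submodule.finiteDimensional_of_le inf_le_left
  have hfT : finrank K T = finrank K (U₂ ⊓ B : Submodule K ℂ) :=
    ((Submodule.equivMapOfInjective (mulL K ξ) hinj (U₂ ⊓ B)).finrank_eq).symm
  haveI : FiniteDimensional K T := inferInstance
  have h1 := Submodule.finrank_sup_add_finrank_inf_eq S T
  have h2 : finrank K (S ⊔ T : Submodule K ℂ) ≤
      finrank K (U₁ ⊔ U₂.map (mulL K ξ) : Submodule K ℂ) :=
    Submodule.finrank_mono (sup_le_sup inf_le_left (Submodule.map_mono inf_le_left))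
  have h3 : finrank K (S ⊓ T : Submodule K ℂ) ≤ n := by
    by_contra hc
    obtain ⟨g, hg⟩ := exists_linearIndependent_of_le_finrank (R := K)
      (M := (S ⊓ T : Submodule K ℂ)) (n := n + 1) (by omega)
    have hgT : ∀ i, ∃ v ∈ (U₂ ⊓ B : Submodule K ℂ), ξ * v = (g i : ℂ) := by
      intro i
      obtain ⟨v, hv, hv2⟩ := (g i).2.2
      exact ⟨v, hv, hv2⟩
    choose v hv hvg using hgT
    have hli : LinearIndependent K v := by
      apply LinearIndependent.of_comp (mulL K ξ)
      have h4 : (mulL K ξ) ∘ v = (S ⊓ T : Submodule K ℂ).subtype ∘ g := by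
        funext i
        exact hvg i
      rw [h4]
      exact hg.map' _ (Submodule.ker_subtype _)
    refine h v hli (fun i => ?_) (fun i => ?_) (fun i => (hv i).1) (fun i => (hv i).2)
    · rw [hvg i]; exact (g i).2.1.1
    · rw [hvg i]; exact (g i).2.1.2
  omega

theorem le_finrank_of_li {K : Type*} [Field K] [Algebra K ℂ] (S : Submodule K ℂ)
    [FiniteDimensional K S] (k : ℕ) (f : Fin k → ℂ) (hf : LinearIndependent K f)
    (hS : ∀ i, f i ∈ S) : k ≤ finrank K S := by
  have h1 : LinearIndependent K (fun i => (⟨f i, hS i⟩ : S)) := by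
    apply LinearIndependent.of_comp S.subtype
    exact hf
  simpa using h1.fintype_card_le_finrank

theorem finrank_degreeLT (K : Type*) [Field K] (N : ℕ) :
    finrank K (degreeLT K N) = N := by
  rw [(degreeLTEquiv K N).finrank_eq]
  simp

instance finite_degreeLT (K : Type*) [Field K] (N : ℕ) : FiniteDimensional K (degreeLT K N) :=
  (degreeLTEquiv K N).symm.finiteDimensional

/-- The shift argument for values of polynomials. -/
theorem poly_count {K : Type*} [Field K] [Algebra K ℂ] (θ : ℂ) (hθ : Transcendental K θ)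
    (A B : Submodule K ℂ) (h1B : (1 : ℂ) ∈ B) (hAB : A ≤ B) (n : ℕ)
    (h : ∀ f : Fin (n + 1) → ℂ, LinearIndependent K f → (∀ i, θ * f i ∈ A) →
      (∀ i, f i ∈ B) → (∀ i, ∃ p : K[X], aeval θ p = f i) → False)
    (N k : ℕ) (P : Fin k → K[X]) (hP : LinearIndependent K P) (hN : ∀ i, (P i).natDegree ≤ N)
    (h0 : ∀ i, (P i).coeff 0 = 0) (hA : ∀ i, aeval θ (P i) ∈ A) : 2 * k ≤ N + n := by
  classical
  have hθ0 : θ ≠ 0 := by
    rintro rfl
    exact hθ isAlgebraic_zero
  let φ : K[X] →ₗ[K] ℂ := (aeval θ : K[X] →ₐ[K] ℂ).toLinearMap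
  have hφ : Function.Injective φ := transcendental_iff_injective.mp hθ
  set U₂ : Submodule K ℂ := (degreeLT K (N + 1)).map φ with hU₂
  set U₁ : Submodule K ℂ := (degreeLT K N).map (mulL K θ ∘ₗ φ) with hU₁
  have hle : U₁ ≤ U₂.map (mulL K θ) := by
    rw [hU₁, hU₂, ← Submodule.map_comp]
    exact Submodule.map_mono (degreeLT_mono (by omega))
  have hcount := dim_count A B hθ0 U₁ U₂ n (by
    intro f hf hf1 hf2 hf3 hf4
    refine h f hf hf2 hf4 (fun i => ?_)
    obtain ⟨p, -, hp⟩ := hf3 i
    exact ⟨p, hp⟩)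
  rw [sup_eq_right.mpr hle] at hcount
  have hdim : finrank K (U₂.map (mulL K θ) : Submodule K ℂ) ≤ N + 1 := by
    calc finrank K (U₂.map (mulL K θ) : Submodule K ℂ) ≤ finrank K U₂ :=
          Submodule.finrank_map_le _ _
      _ ≤ finrank K (degreeLT K (N + 1)) := Submodule.finrank_map_le _ _
      _ = N + 1 := finrank_degreeLT K (N + 1)
  have hk1 : k ≤ finrank K (U₁ ⊓ A : Submodule K ℂ) := by
    haveI : FiniteDimensional K (U₁ ⊓ A : Submodule K ℂ) :=
      Submodule.finiteDimensional_of_le inf_le_left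
    refine le_finrank_of_li _ k (fun i => aeval θ (P i)) (hP.map' φ (LinearMap.ker_eq_bot.mpr hφ))
      (fun i => ⟨?_, hA i⟩)
    -- `P i = X * Q`
    have hdvd : P i = X * (P i).divX := by
      conv_lhs => rw [← (P i).X_mul_divX_add]
      rw [h0 i]; simp
    refine ⟨(P i).divX, ?_, ?_⟩
    · rw [SetLike.mem_coe, mem_degreeLT]
      rcases Nat.eq_zero_or_pos N with hN0 | hN0
      · have h5 := hN i
        rw [hN0] at h5
        have h6 : P i = 0 := by
          rw [eq_C_of_natDegree_le_zero h5, h0 i, C_0]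
        exact absurd h6 (hP.ne_zero i)
      · refine (degree_le_natDegree).trans_lt ?_
        rw [natDegree_divX_eq_natDegree_tsub_one]
        have := hN i
        exact_mod_cast (by omega : (P i).natDegree - 1 < N)
    · change θ * aeval θ (P i).divX = aeval θ (P i)
      conv_rhs => rw [hdvd]
      rw [map_mul, aeval_X]
  have hk2 : k + 1 ≤ finrank K (U₂ ⊓ B : Submodule K ℂ) := by
    haveI : FiniteDimensional K (U₂ ⊓ B : Submodule K ℂ) :=
      Submodule.finiteDimensional_of_le inf_le_left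
    have hli : LinearIndependent K (Fin.cons (1 : K[X]) P : Fin (k + 1) → K[X]) := by
      rw [linearIndependent_fin_cons]
      refine ⟨hP, fun hmem => ?_⟩
      have h7 : Submodule.span K (Set.range P) ≤ LinearMap.ker (lcoeff K 0) := by
        rw [Submodule.span_le]
        rintro _ ⟨i, rfl⟩
        exact h0 i
      have h8 := h7 hmem
      rw [LinearMap.mem_ker, lcoeff_apply, coeff_one_zero] at h8
      exact one_ne_zero h8
    refine le_finrank_of_li _ (k + 1) (φ ∘ (Fin.cons (1 : K[X]) P : Fin (k + 1) → K[X]))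
      (hli.map' φ (LinearMap.ker_eq_bot.mpr hφ)) (fun i => ?_)
    refine Fin.cases ?_ (fun j => ?_) i
    · refine ⟨⟨1, ?_, ?_⟩, ?_⟩
      · rw [SetLike.mem_coe, mem_degreeLT]
        rw [degree_one]
        exact_mod_cast Nat.succ_pos N
      · simp
      · simpa [φ] using h1B
    · refine ⟨⟨P j, ?_, ?_⟩, ?_⟩
      · rw [SetLike.mem_coe, mem_degreeLT]
        refine (degree_le_natDegree).trans_lt ?_
        have := hN j
        exact_mod_cast (by omega : (P j).natDegree < N + 1)
      · simp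
      · simpa [φ] using hAB (hA j)
  omega

end Pool.Agent.W5h65.EE
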