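import Mathlib
import Pool.Agent.W5h65.EE.Dim
import Pool.Agent.W252.BWFinal
import Pool.Agent.W252.GelFinal
import Pool.Agent.H301R2.SSE.Forms
import Pool.Agent.H340R2.LW

/-!
# Ranks of numbers `e ^ u`, `u` algebraic over `ℚ(e)`
-/

set_option autoImplicit false

namespace Pool.Agent.W5h65.EE

open Module Polynomial
open Pool.Agent.H301R2.SSE (QB mem_QB Lt Lt_one strong_six)
open Pool.Agent.H340R2.LW (transcendental_cexp transcendental_exp_one_complex
  exp_linearIndependent_aux)

/-- the field `ℚ(e)` -/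
noncomputable abbrev QE : IntermediateField ℚ ℂ := IntermediateField.adjoin ℚ {Complex.exp 1}

theorem li_pair_one {ξ : ℂ} (hξ : ∀ q : ℚ, (q : ℂ) ≠ ξ) : LinearIndependent ℚ ![ξ, 1] := by
  rw [LinearIndependent.pair_iff]
  intro s t h
  rw [Rat.smul_def, Rat.smul_def, mul_one] at h
  have hs : s = 0 := by
    by_contra hs
    have hs' : (s : ℂ) ≠ 0 := by exact_mod_cast hs
    apply hξ (-t / s)
    push_cast
    field_simp
    linear_combination -h
  subst hs
  refine ⟨rfl, ?_⟩
  simpa using h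

/-- **Inequality for algebraic values.** -/
theorem rank_alg {ξ : ℂ} (hξ : IsAlgebraic QE ξ) (hξQ : ∀ q : ℚ, (q : ℂ) ≠ ξ)
    (U₁ U₂ : Submodule ℚ ℂ) [FiniteDimensional ℚ U₁] [FiniteDimensional ℚ U₂]
    (hU : ∀ z ∈ U₂, IsAlgebraic QE z) :
    finrank ℚ (U₁ ⊓ expAlg ℚ : Submodule ℚ ℂ) + finrank ℚ (U₂ ⊓ expAlg QE : Submodule ℚ ℂ) ≤
      finrank ℚ (U₁ ⊔ U₂.map (mulL ℚ ξ) : Submodule ℚ ℂ) + 1 := by
  have hξ0 : ξ ≠ 0 := by
    have := hξQ 0
    rw [Rat.cast_zero] at this
    exact this.symm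
  refine dim_count (expAlg ℚ) (expAlg QE) hξ0 U₁ U₂ 1 ?_
  intro f hf _ hf2 hf3 hf4
  refine Pool.Agent.W252.bw transcendental_exp_one_complex f ![ξ, 1] hf (li_pair_one hξQ)
    (fun i => hU _ (hf3 i)) ?_ ?_ ?_
  · intro j
    fin_cases j
    · exact hξ
    · exact isAlgebraic_one
  · intro i
    have := hf2 i
    rw [mem_expAlg, mul_comm] at this
    exact this
  · intro i
    have := hf4 i
    rw [mem_expAlg] at this
    simpa using this

/-- **Inequality for values algebraic over `ℚ(e)`.** -/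
theorem rank_algE {ξ : ℂ} (hξ : IsAlgebraic QE ξ) (hξQ : ∀ q : ℚ, (q : ℂ) ≠ ξ)
    (U₁ U₂ : Submodule ℚ ℂ) [FiniteDimensional ℚ U₁] [FiniteDimensional ℚ U₂]
    (hU : ∀ z ∈ U₂, IsAlgebraic QE z) :
    finrank ℚ (U₁ ⊓ expAlg QE : Submodule ℚ ℂ) + finrank ℚ (U₂ ⊓ expAlg QE : Submodule ℚ ℂ) ≤
      finrank ℚ (U₁ ⊔ U₂.map (mulL ℚ ξ) : Submodule ℚ ℂ) + 2 := by
  have hξ0 : ξ ≠ 0 := by
    have := hξQ 0
    rw [Rat.cast_zero] at this
    exact this.symm
  refine dim_count (expAlg QE) (expAlg QE) hξ0 U₁ U₂ 2 ?_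
  intro f hf _ hf2 hf3 hf4
  refine Pool.Agent.W252.gelG 2 3 (by norm_num) _ transcendental_exp_one_complex ![ξ, 1] f
    (li_pair_one hξQ) hf ?_ (fun i => hU _ (hf3 i)) ?_
  · intro j
    fin_cases j
    · exact hξ
    · exact isAlgebraic_one
  · intro j i
    fin_cases j
    · exact hf2 i
    · have := hf4 i
      rw [mem_expAlg] at this
      simpa using this

theorem li_QB_sum {n : ℕ} {f : Fin n → ℂ} (hf : LinearIndependent QB f) (c : Fin n → ℂ)
    (hc : ∀ j, IsAlgebraic ℚ (c j)) (h : ∑ j, c j * f j = 0) : ∀ j, c j = 0 := by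
  rw [Fintype.linearIndependent_iff] at hf
  intro j
  have := hf (fun j => (⟨c j, mem_QB.mpr (hc j)⟩ : QB)) (by
    rw [← h]
    apply Finset.sum_congr rfl
    intro i _
    rw [Algebra.smul_def]
    rfl) j
  exact congrArg Subtype.val this

/-- **Inequality for linear forms in logarithms with algebraic coefficients.** -/
theorem rank_Lt {ξ : ℂ} (hξ : Transcendental ℚ ξ)
    (U₁ U₂ : Submodule QB ℂ) [FiniteDimensional QB U₁] [FiniteDimensional QB U₂] :
    finrank QB (U₁ ⊓ Lt : Submodule QB ℂ) + finrank QB (U₂ ⊓ Lt : Submodule QB ℂ) ≤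
      finrank QB (U₁ ⊔ U₂.map (mulL QB ξ) : Submodule QB ℂ) + 2 := by
  have hξ0 : ξ ≠ 0 := by
    rintro rfl
    exact hξ isAlgebraic_zero
  refine dim_count Lt Lt hξ0 U₁ U₂ 2 ?_
  intro f hf _ hf2 _ hf4
  refine strong_six ![ξ, 1] f ?_ (li_QB_sum hf) ?_
  · intro a b ha hb h
    simp only [Matrix.cons_val_zero, Matrix.cons_val_one, mul_one] at h
    have ha0 : a = 0 := by
      by_contra ha0
      apply hξ
      have : ξ = -b * a⁻¹ := by
        field_simp
        linear_combination h
      rw [this]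
      exact hb.neg.mul ha.inv
    subst ha0
    refine ⟨rfl, ?_⟩
    simpa using h
  · intro i j
    fin_cases i
    · exact hf2 j
    · have := hf4 j
      simpa using this

theorem e_ne_rat (q : ℚ) : (q : ℂ) ≠ Complex.exp 1 := by
  intro h
  apply transcendental_exp_one_complex
  rw [← h]
  exact isAlgebraic_algebraMap q

theorem algE_e : IsAlgebraic QE (Complex.exp 1) := by
  have h : Complex.exp 1 ∈ QE := IntermediateField.mem_adjoin_simple_self ℚ _
  exact isAlgebraic_algebraMap (⟨_, h⟩ : QE)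

theorem algE_of_alg {z : ℂ} (h : IsAlgebraic ℚ z) : IsAlgebraic QE z := h.extendScalars
  (algebraMap ℚ QE).injective

theorem algE_aeval (p : ℚ[X]) : IsAlgebraic QE (aeval (Complex.exp 1) p) := by
  have h : aeval (Complex.exp 1) p ∈ QE := by
    have h1 : Complex.exp 1 ∈ QE := IntermediateField.mem_adjoin_simple_self ℚ _
    have h2 : aeval (Complex.exp 1) p = algebraMap QE ℂ (aeval (⟨Complex.exp 1, h1⟩ : QE) p) := by
      rw [← aeval_algebraMap_apply]
      rfl
    rw [h2]
    exact (aeval (⟨Complex.exp 1, h1⟩ : QE) p).2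
  exact isAlgebraic_algebraMap (⟨_, h⟩ : QE)

/-- polynomials without constant term, algebraic values -/
theorem poly_alg (N k : ℕ) (P : Fin k → ℚ[X]) (hP : LinearIndependent ℚ P)
    (hN : ∀ i, (P i).natDegree ≤ N) (h0 : ∀ i, (P i).coeff 0 = 0)
    (hA : ∀ i, IsAlgebraic ℚ (Complex.exp (aeval (Complex.exp 1) (P i)))) :
    2 * k ≤ N + 1 := by
  refine poly_count (Complex.exp 1) transcendental_exp_one_complex (expAlg ℚ) (expAlg QE)
    ?_ ?_ 1 ?_ N k P hP hN h0 hA
  · exact algE_e
  · intro z hz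
    exact algE_of_alg hz
  · intro f hf h1 h2 h3
    refine Pool.Agent.W252.bw transcendental_exp_one_complex f ![Complex.exp 1, 1] hf
      (li_pair_one e_ne_rat) (fun i => ?_) ?_ ?_ ?_
    · obtain ⟨p, hp⟩ := h3 i
      rw [← hp]; exact algE_aeval p
    · intro j
      fin_cases j
      · exact algE_e
      · exact isAlgebraic_one
    · intro i
      have := h1 i
      rw [mem_expAlg, mul_comm] at this
      exact this
    · intro i
      have := h2 i
      rw [mem_expAlg] at this
      simpa using this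

/-- polynomials without constant term, values algebraic over `ℚ(e)` -/
theorem poly_algE (N k : ℕ) (P : Fin k → ℚ[X]) (hP : LinearIndependent ℚ P)
    (hN : ∀ i, (P i).natDegree ≤ N) (h0 : ∀ i, (P i).coeff 0 = 0)
    (hA : ∀ i, IsAlgebraic QE (Complex.exp (aeval (Complex.exp 1) (P i)))) :
    2 * k ≤ N + 2 := by
  refine poly_count (Complex.exp 1) transcendental_exp_one_complex (expAlg QE) (expAlg QE)
    ?_ le_rfl 2 ?_ N k P hP hN h0 hA
  · exact algE_e
  · intro f hf h1 h2 h3
    refine Pool.Agent.W252.gelG 2 3 (by norm_num) _ transcendental_exp_one_complex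
      ![Complex.exp 1, 1] f (li_pair_one e_ne_rat) hf ?_ (fun i => ?_) ?_
    · intro j
      fin_cases j
      · exact algE_e
      · exact isAlgebraic_one
    · obtain ⟨p, hp⟩ := h3 i
      rw [← hp]; exact algE_aeval p
    · intro j i
      fin_cases j
      · exact h1 i
      · have := h2 i
        rw [mem_expAlg] at this
        simpa using this

theorem transc_QB {z : ℂ} (h : Transcendental ℚ z) : Transcendental QB z := by
  intro h1
  have : Algebra.IsAlgebraic ℚ QB := ⟨fun x => by
    have := mem_QB.mp x.2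
    rwa [← isAlgebraic_algebraMap_iff (algebraMap QB ℂ).injective]⟩
  exact h (h1.restrictScalars ℚ)

/-- polynomials with algebraic coefficients, values in the space of linear forms -/
theorem poly_Lt (N k : ℕ) (P : Fin k → QB[X]) (hP : LinearIndependent QB P)
    (hN : ∀ i, (P i).natDegree ≤ N) (h0 : ∀ i, (P i).coeff 0 = 0)
    (hA : ∀ i, aeval (Complex.exp 1) (P i) ∈ Lt) :
    2 * k ≤ N + 2 := by
  refine poly_count (Complex.exp 1) (transc_QB transcendental_exp_one_complex) Lt Lt
    Lt_one le_rfl 2 ?_ N k P hP hN h0 hA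
  intro f hf h1 h2 _
  refine strong_six ![Complex.exp 1, 1] f ?_ (li_QB_sum hf) ?_
  · intro a b ha hb h
    simp only [Matrix.cons_val_zero, Matrix.cons_val_one, mul_one] at h
    have ha0 : a = 0 := by
      by_contra ha0
      apply transcendental_exp_one_complex
      have : Complex.exp 1 = -b * a⁻¹ := by
        field_simp
        linear_combination h
      rw [this]
      exact hb.neg.mul ha.inv
    subst ha0
    refine ⟨rfl, ?_⟩
    simpa using h
  · intro i j
    fin_cases i
    · exact h1 j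
    · have := h2 j
      simpa using this

/-! ### Iterated exponentials of rational numbers -/

theorem algE_exp_rat (r : ℚ) : IsAlgebraic QE (Complex.exp (r : ℂ)) := by
  have := exp_rat_mul_alg (k := QE) r (z := 1) algE_e
  rwa [mul_one] at this

theorem li_exp2 {r s : ℂ} (hr : IsAlgebraic ℚ r) (hs : IsAlgebraic ℚ s) (hrs : r ≠ s)
    {a b : ℂ} (ha : IsAlgebraic ℚ a) (hb : IsAlgebraic ℚ b)
    (h : a * Complex.exp r + b * Complex.exp s = 0) : a = 0 ∧ b = 0 := by
  have h1 : a + b * Complex.exp (s - r) = 0 := by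
    rw [Complex.exp_sub]
    have := Complex.exp_ne_zero r
    field_simp
    linear_combination h
  have hb0 : b = 0 := by
    by_contra hb0
    apply transcendental_cexp (s - r) (hs.sub hr) (sub_ne_zero.mpr hrs.symm)
    have : Complex.exp (s - r) = -a * b⁻¹ := by
      field_simp
      linear_combination h1
    rw [this]
    exact ha.neg.mul hb.inv
  subst hb0
  refine ⟨?_, rfl⟩
  simpa using h1

theorem li_exp3 {r s t : ℂ} (hr : IsAlgebraic ℚ r) (hs : IsAlgebraic ℚ s) (ht : IsAlgebraic ℚ t)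
    (hrs : r ≠ s) (hrt : r ≠ t) (hst : s ≠ t)
    {a b c : ℂ} (ha : IsAlgebraic ℚ a) (hb : IsAlgebraic ℚ b) (hc : IsAlgebraic ℚ c)
    (h : a * Complex.exp r + b * Complex.exp s + c * Complex.exp t = 0) :
    a = 0 ∧ b = 0 ∧ c = 0 := by
  refine exp_linearIndependent_aux (s - r) (t - r) a b c (hs.sub hr) (ht.sub hr)
    (sub_ne_zero.mpr hrs.symm) (sub_ne_zero.mpr hrt.symm) ?_ ha hb hc ?_
  · intro h1
    exact hst (by linear_combination h1)
  · rw [Complex.exp_sub, Complex.exp_sub]
    have := Complex.exp_ne_zero r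
    field_simp
    linear_combination h

theorem rat_alg (r : ℚ) : IsAlgebraic ℚ (r : ℂ) := isAlgebraic_algebraMap r

theorem li_exp2_rat {r s : ℚ} (hrs : r ≠ s) :
    LinearIndependent ℚ ![Complex.exp (r : ℂ), Complex.exp (s : ℂ)] := by
  rw [LinearIndependent.pair_iff]
  intro a b h
  rw [Rat.smul_def, Rat.smul_def] at h
  have := li_exp2 (rat_alg r) (rat_alg s) (by exact_mod_cast hrs) (rat_alg a) (rat_alg b) h
  exact ⟨by exact_mod_cast this.1, by exact_mod_cast this.2⟩

theorem li_exp3_rat {r s t : ℚ} (hrs : r ≠ s) (hrt : r ≠ t) (hst : s ≠ t) :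
    LinearIndependent ℚ ![Complex.exp (r : ℂ), Complex.exp (s : ℂ), Complex.exp (t : ℂ)] := by
  rw [Fintype.linearIndependent_iff]
  intro g h
  rw [Fin.sum_univ_three] at h
  simp only [Rat.smul_def, Matrix.cons_val_zero, Matrix.cons_val_one, Matrix.cons_val] at h
  have := li_exp3 (rat_alg r) (rat_alg s) (rat_alg t) (by exact_mod_cast hrs)
    (by exact_mod_cast hrt) (by exact_mod_cast hst) (rat_alg (g 0)) (rat_alg (g 1))
    (rat_alg (g 2)) h
  intro i
  fin_cases i
  · exact_mod_cast this.1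
  · exact_mod_cast this.2.1
  · exact_mod_cast this.2.2

/-- `e ^ (e ^ r)` is algebraic -/
def SA (r : ℚ) : Prop := IsAlgebraic ℚ (Complex.exp (Complex.exp (r : ℂ)))

/-- `e ^ (e ^ r)` is algebraic over `ℚ(e)` -/
def SE (r : ℚ) : Prop := IsAlgebraic QE (Complex.exp (Complex.exp (r : ℂ)))

theorem SA.se {r : ℚ} (h : SA r) : SE r := algE_of_alg h

theorem SE_zero : SE 0 := by
  unfold SE
  rw [Rat.cast_zero, Complex.exp_zero]
  exact algE_e

theorem not_SA_zero : ¬ SA 0 := by
  unfold SA
  rw [Rat.cast_zero, Complex.exp_zero]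
  exact transcendental_exp_one_complex

theorem bw_grid {b c t : ℚ} (hbc : b ≠ c) (ht : t ≠ 0) (hb : SA b) (hc : SA c)
    (hbt : SE (b + t)) (hct : SE (c + t)) : False := by
  refine Pool.Agent.W252.bw transcendental_exp_one_complex
    ![Complex.exp (b : ℂ), Complex.exp (c : ℂ)] ![Complex.exp ((0 : ℚ) : ℂ), Complex.exp (t : ℂ)]
    (li_exp2_rat hbc) (li_exp2_rat ht.symm) ?_ ?_ ?_ ?_
  · intro i
    fin_cases i
    · exact algE_exp_rat b
    · exact algE_exp_rat c
  · intro i
    fin_cases i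
    · exact algE_exp_rat 0
    · exact algE_exp_rat t
  · intro i
    fin_cases i
    · simpa [SA] using hb
    · simpa [SA] using hc
  · intro i
    fin_cases i
    · simpa [SE, Complex.exp_add] using hbt
    · simpa [SE, Complex.exp_add] using hct

theorem gel_grid {a b c t : ℚ} (hab : a ≠ b) (hac : a ≠ c) (hbc : b ≠ c) (ht : t ≠ 0)
    (ha : SE a) (hb : SE b) (hc : SE c)
    (hat : SE (a + t)) (hbt : SE (b + t)) (hct : SE (c + t)) : False := by
  refine Pool.Agent.W252.gelG 2 3 (by norm_num) _ transcendental_exp_one_complex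
    ![Complex.exp ((0 : ℚ) : ℂ), Complex.exp (t : ℂ)]
    ![Complex.exp (a : ℂ), Complex.exp (b : ℂ), Complex.exp (c : ℂ)]
    (li_exp2_rat ht.symm) (li_exp3_rat hab hac hbc) ?_ ?_ ?_
  · intro i
    fin_cases i
    · exact algE_exp_rat 0
    · exact algE_exp_rat t
  · intro i
    fin_cases i
    · exact algE_exp_rat a
    · exact algE_exp_rat b
    · exact algE_exp_rat c
  · intro i j
    fin_cases i <;> fin_cases j
    · simpa [SE] using ha
    · simpa [SE] using hb
    · simpa [SE] using hc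
    · simpa [SE, Complex.exp_add, mul_comm] using hat
    · simpa [SE, Complex.exp_add, mul_comm] using hbt
    · simpa [SE, Complex.exp_add, mul_comm] using hct

/-- at most two algebraic exponents -/
theorem six_grid {a b c t : ℂ} (ha : IsAlgebraic ℚ a) (hb : IsAlgebraic ℚ b)
    (hc : IsAlgebraic ℚ c) (ht : IsAlgebraic ℚ t)
    (hab : a ≠ b) (hac : a ≠ c) (hbc : b ≠ c) (ht0 : t ≠ 0)
    (la : Complex.exp a ∈ Lt) (lb : Complex.exp b ∈ Lt) (lc : Complex.exp c ∈ Lt)
    (lat : Complex.exp (a + t) ∈ Lt) (lbt : Complex.exp (b + t) ∈ Lt)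
    (lct : Complex.exp (c + t) ∈ Lt) : False := by
  refine strong_six ![1, Complex.exp t] ![Complex.exp a, Complex.exp b, Complex.exp c] ?_ ?_ ?_
  · intro u v hu hv h
    have h1 : u * Complex.exp 0 + v * Complex.exp t = 0 := by
      simpa using h
    exact li_exp2 isAlgebraic_zero ht ht0.symm hu hv h1
  · intro g hg h
    rw [Fin.sum_univ_three] at h
    simp only [Matrix.cons_val_zero, Matrix.cons_val_one, Matrix.cons_val] at h
    obtain ⟨h0, h1, h2⟩ := li_exp3 ha hb hc hab hac hbc (hg 0) (hg 1) (hg 2) h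
    intro j
    fin_cases j
    · exact h0
    · exact h1
    · exact h2
  · intro i j
    fin_cases i <;> fin_cases j
    · simpa using la
    · simpa using lb
    · simpa using lc
    · simpa [Complex.exp_add, mul_comm] using lat
    · simpa [Complex.exp_add, mul_comm] using lbt
    · simpa [Complex.exp_add, mul_comm] using lct

end Pool.Agent.W5h65.EE
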