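import Mathlib
import Pool.Agent.W5h65.EE.Main

/-!
# Counting
-/

set_option autoImplicit false

namespace Pool.Agent.W5h65.EE

open Finset Pointwise
open Pool.Agent.H301R2.SSE (Lt)

/-- If every difference `δ ≠ 0` occurs at most `m` times in `T`, then `T - T` is large. -/
theorem card_sub_le {G : Type*} [AddCommGroup G] [DecidableEq G] (T : Finset G) (m : ℕ)
    (h : ∀ δ : G, δ ≠ 0 → #{s ∈ T | s + δ ∈ T} ≤ m) :
    T.card * (T.card - 1) ≤ m * ((T - T).card - 1) := by
  rcases T.eq_empty_or_nonempty with rfl | ⟨x, hx⟩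
  · simp
  have h1 := Finset.card_le_mul_card_image (f := fun p : G × G => p.1 - p.2) T.offDiag m (by
    intro δ hδ
    rw [Finset.mem_image] at hδ
    obtain ⟨p, hp, rfl⟩ := hδ
    rw [Finset.mem_offDiag] at hp
    have hne : p.1 - p.2 ≠ 0 := sub_ne_zero.mpr hp.2.2
    refine le_trans ?_ (h _ hne)
    apply Finset.card_le_card_of_injOn (fun q : G × G => q.2)
    · intro q hq
      simp only [Finset.coe_filter, Finset.mem_offDiag, Set.mem_setOf_eq] at hq
      simp only [Finset.coe_filter, Set.mem_setOf_eq]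
      refine ⟨hq.1.2.1, ?_⟩
      rw [← hq.2]
      simpa using hq.1.1
    · intro q hq q' hq' hqq
      simp only [Finset.coe_filter, Finset.mem_offDiag, Set.mem_setOf_eq] at hq hq'
      have e1 : q.2 = q'.2 := hqq
      have e2 : q.1 - q.2 = q'.1 - q'.2 := by rw [hq.2, hq'.2]
      rw [e1] at e2
      exact Prod.ext (sub_left_injective e2) e1)
  have h2 : T.offDiag.image (fun p : G × G => p.1 - p.2) ⊆ (T - T).erase 0 := by
    intro δ hδ
    rw [Finset.mem_image] at hδ
    obtain ⟨p, hp, rfl⟩ := hδ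
    rw [Finset.mem_offDiag] at hp
    rw [Finset.mem_erase]
    exact ⟨sub_ne_zero.mpr hp.2.2, Finset.sub_mem_sub hp.1 hp.2.1⟩
  have h3 : (0 : G) ∈ T - T := by
    have := Finset.sub_mem_sub hx hx
    rwa [sub_self] at this
  have h4 := Finset.card_le_card h2
  rw [Finset.card_erase_of_mem h3] at h4
  rw [Finset.offDiag_card] at h1
  calc T.card * (T.card - 1) = T.card * T.card - T.card := by
        rw [Nat.mul_sub_one]
    _ ≤ m * _ := h1
    _ ≤ m * ((T - T).card - 1) := Nat.mul_le_mul_left m h4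

/-- for three elements of a finite set of cardinality at least three -/
theorem three_of_card {G : Type*} [DecidableEq G] (S : Finset G) (h : ¬ #S ≤ 2) :
    ∃ a ∈ S, ∃ b ∈ S, ∃ c ∈ S, a ≠ b ∧ a ≠ c ∧ b ≠ c := by
  obtain ⟨a, b, c, ha, hb, hc, h1, h2, h3⟩ := Finset.two_lt_card_iff.mp (by omega : 2 < #S)
  exact ⟨a, ha, b, hb, c, hc, h1, h2, h3⟩

theorem count_SE (T : Finset ℚ) (hT : ∀ r ∈ T, SE r) :
    T.card * (T.card - 1) ≤ 2 * ((T - T).card - 1) := by
  apply card_sub_le
  intro δ hδ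
  by_contra hc
  obtain ⟨a, ha, b, hb, c, hc, h1, h2, h3⟩ := three_of_card _ hc
  rw [Finset.mem_filter] at ha hb hc
  exact gel_grid h1 h2 h3 hδ (hT _ ha.1) (hT _ hb.1) (hT _ hc.1) (hT _ ha.2) (hT _ hb.2)
    (hT _ hc.2)

theorem count_Lt (T : Finset ℂ) (hT : ∀ b ∈ T, IsAlgebraic ℚ b ∧ Complex.exp b ∈ Lt) :
    T.card * (T.card - 1) ≤ 2 * ((T - T).card - 1) := by
  apply card_sub_le
  intro δ hδ
  by_contra hc
  obtain ⟨a, ha, b, hb, c, hc, h1, h2, h3⟩ := three_of_card _ hc
  rw [Finset.mem_filter] at ha hb hc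
  have hδa : IsAlgebraic ℚ δ := by
    have h5 := (hT _ ha.2).1.sub (hT _ ha.1).1
    rwa [add_sub_cancel_left] at h5
  exact six_grid (hT _ ha.1).1 (hT _ hb.1).1 (hT _ hc.1).1 hδa h1 h2 h3 hδ (hT _ ha.1).2
    (hT _ hb.1).2 (hT _ hc.1).2 (hT _ ha.2).2 (hT _ hb.2).2 (hT _ hc.2).2

/-- **Sidon property.** -/
theorem sidon {a b c d : ℚ} (ha : SA a) (hb : SA b) (hc : SA c) (hd : SA d)
    (h : a + b = c + d) : (a = c ∧ b = d) ∨ (a = d ∧ b = c) := by
  by_cases h1 : a = c
  · left; exact ⟨h1, by linarith⟩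
  by_cases h2 : a = d
  · right; exact ⟨h2, by linarith⟩
  exfalso
  -- `a = c + t`, `d = b + t`
  refine bw_grid (b := c) (c := b) (t := a - c) ?_ (sub_ne_zero.mpr h1) hc hb ?_ ?_
  · intro h3
    apply h2
    linarith
  · have : c + (a - c) = a := by ring
    rw [this]; exact ha.se
  · have : b + (a - c) = d := by linarith
    rw [this]; exact hd.se

/-- **Sum-free property.** -/
theorem sumfree {a b : ℚ} (ha : SA a) (hb : SA b) : ¬ SA (a + b) := by
  intro h
  have ha0 : a ≠ 0 := by rintro rfl; exact not_SA_zero ha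
  have hb0 : b ≠ 0 := by rintro rfl; exact not_SA_zero hb
  refine bw_grid (b := a) (c := a + b) (t := -a) ?_ (neg_ne_zero.mpr ha0) ha h ?_ ?_
  · intro h1
    apply hb0
    linarith
  · rw [add_neg_cancel]; exact SE_zero
  · have : a + b + -a = b := by ring
    rw [this]; exact hb.se

/-- the set of all `k / b` with `|k| ≤ m` -/
theorem card_sub_scaled (b : ℕ) (m : ℕ) (T : Finset ℚ)
    (hT : ∀ r ∈ T, ∃ k : ℤ, |k| ≤ m ∧ r = k / b) : (T - T).card ≤ 4 * m + 1 := by
  have h1 : (T - T) ⊆ (Finset.Icc (-(2 * m : ℤ)) (2 * m : ℤ)).image (fun k : ℤ => (k : ℚ) / b) := by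
    intro δ hδ
    obtain ⟨r, hr, s, hs, rfl⟩ := Finset.mem_sub.mp hδ
    obtain ⟨k, hk, rfl⟩ := hT r hr
    obtain ⟨l, hl, rfl⟩ := hT s hs
    rw [Finset.mem_image]
    refine ⟨k - l, ?_, ?_⟩
    · rw [abs_le] at hk hl
      rw [Finset.mem_Icc]
      omega
    · push_cast; ring
  refine (Finset.card_le_card h1).trans (Finset.card_image_le.trans ?_)
  rw [Int.card_Icc]
  omega

/-- nonnegative integers: size of the difference set -/
theorem card_sub_nat (N : ℕ) (T : Finset ℚ) (hT : ∀ r ∈ T, ∃ n : ℕ, n ≤ N ∧ r = n) :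
    (T - T).card ≤ 2 * N + 1 := by
  have h1 : (T - T) ⊆ (Finset.Icc (-(N : ℤ)) (N : ℤ)).image (fun k : ℤ => (k : ℚ)) := by
    intro δ hδ
    obtain ⟨r, hr, s, hs, rfl⟩ := Finset.mem_sub.mp hδ
    obtain ⟨k, hk, rfl⟩ := hT r hr
    obtain ⟨l, hl, rfl⟩ := hT s hs
    rw [Finset.mem_image]
    refine ⟨(k : ℤ) - l, ?_, ?_⟩
    · rw [Finset.mem_Icc]
      omega
    · push_cast; ring
  refine (Finset.card_le_card h1).trans (Finset.card_image_le.trans ?_)
  rw [Int.card_Icc]
  omega

theorem count_nat_SE (N : ℕ) (T : Finset ℕ) (hT : ∀ n ∈ T, 1 ≤ n ∧ n ≤ N ∧ SE n) :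
    T.card * (T.card + 1) ≤ 4 * N := by
  classical
  set T' : Finset ℚ := insert 0 (T.image (fun n : ℕ => (n : ℚ))) with hT'
  have h0 : (0 : ℚ) ∉ T.image (fun n : ℕ => (n : ℚ)) := by
    rw [Finset.mem_image]
    rintro ⟨n, hn, h⟩
    have := (hT n hn).1
    have h2 : n = 0 := by exact_mod_cast h
    omega
  have hcard : T'.card = T.card + 1 := by
    rw [hT', Finset.card_insert_of_notMem h0, Finset.card_image_of_injective _ Nat.cast_injective]
  have h1 := count_SE T' (by
    intro r hr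
    rw [hT', Finset.mem_insert, Finset.mem_image] at hr
    rcases hr with rfl | ⟨n, hn, rfl⟩
    · exact SE_zero
    · exact (hT n hn).2.2)
  have h2 := card_sub_nat N T' (by
    intro r hr
    rw [hT', Finset.mem_insert, Finset.mem_image] at hr
    rcases hr with rfl | ⟨n, hn, rfl⟩
    · exact ⟨0, by omega, by simp⟩
    · exact ⟨n, (hT n hn).2.1, rfl⟩)
  rw [hcard, Nat.add_sub_cancel] at h1
  calc T.card * (T.card + 1) = (T.card + 1) * T.card := by ring
    _ ≤ 2 * ((T' - T').card - 1) := h1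
    _ ≤ 4 * N := by omega

theorem count_nat_SA (N : ℕ) (T : Finset ℕ) (hT : ∀ n ∈ T, 1 ≤ n ∧ n ≤ N ∧ SA n) :
    T.card * (T.card + 1) ≤ 2 * N := by
  classical
  set T' : Finset ℚ := insert 0 (T.image (fun n : ℕ => (n : ℚ))) with hT'
  have h0 : (0 : ℚ) ∉ T.image (fun n : ℕ => (n : ℚ)) := by
    rw [Finset.mem_image]
    rintro ⟨n, hn, h⟩
    have := (hT n hn).1
    have h2 : n = 0 := by exact_mod_cast h
    omega
  have hcard : T'.card = T.card + 1 := by
    rw [hT', Finset.card_insert_of_notMem h0, Finset.card_image_of_injective _ Nat.cast_injective]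
  have hmem : ∀ r ∈ T', r = 0 ∨ (0 < r ∧ SA r) := by
    intro r hr
    rw [hT', Finset.mem_insert, Finset.mem_image] at hr
    rcases hr with rfl | ⟨n, hn, rfl⟩
    · exact Or.inl rfl
    · exact Or.inr ⟨by exact_mod_cast (hT n hn).1, (hT n hn).2.2⟩
  have hSE : ∀ r ∈ T', SE r := by
    intro r hr
    rcases hmem r hr with rfl | ⟨_, h⟩
    · exact SE_zero
    · exact h.se
  have h1 := card_sub_le T' 1 (by
    intro δ hδ
    rw [Finset.card_le_one]
    intro s hs s' hs'
    rw [Finset.mem_filter] at hs hs'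
    by_contra hne
    -- both `s`, `s'` nonzero, or both `s + δ`, `s' + δ` nonzero
    by_cases hs0 : s = 0 ∨ s' = 0
    · by_cases hs1 : s + δ = 0 ∨ s' + δ = 0
      · -- impossible by positivity
        have p1 : 0 ≤ s := by rcases hmem s hs.1 with h | h; exacts [h.ge, h.1.le]
        have p2 : 0 ≤ s' := by rcases hmem s' hs'.1 with h | h; exacts [h.ge, h.1.le]
        have p3 : 0 ≤ s + δ := by rcases hmem _ hs.2 with h | h; exacts [h.ge, h.1.le]
        have p4 : 0 ≤ s' + δ := by rcases hmem _ hs'.2 with h | h; exacts [h.ge, h.1.le]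
        rcases hs0 with h5 | h5 <;> rcases hs1 with h6 | h6
        · apply hδ; linarith
        · apply hne; linarith [lt_of_le_of_ne p2 (fun h => hne (by rw [h5, h]))]
        · apply hne; linarith [lt_of_le_of_ne p1 (fun h => hne (by rw [h5, h]))]
        · apply hδ; linarith
      · rw [not_or] at hs1
        have q1 : SA (s + δ) := by
          rcases hmem _ hs.2 with h | h
          · exact absurd h hs1.1
          · exact h.2
        have q2 : SA (s' + δ) := by
          rcases hmem _ hs'.2 with h | h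
          · exact absurd h hs1.2
          · exact h.2
        refine bw_grid (b := s + δ) (c := s' + δ) (t := -δ) ?_ (neg_ne_zero.mpr hδ) q1 q2 ?_ ?_
        · intro h; apply hne; linarith
        · rw [add_neg_cancel_right]; exact hSE s hs.1
        · rw [add_neg_cancel_right]; exact hSE s' hs'.1
    · rw [not_or] at hs0
      have q1 : SA s := by
        rcases hmem _ hs.1 with h | h
        · exact absurd h hs0.1
        · exact h.2
      have q2 : SA s' := by
        rcases hmem _ hs'.1 with h | h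
        · exact absurd h hs0.2
        · exact h.2
      exact bw_grid hne hδ q1 q2 (hSE _ hs.2) (hSE _ hs'.2))
  have h2 := card_sub_nat N T' (by
    intro r hr
    rw [hT', Finset.mem_insert, Finset.mem_image] at hr
    rcases hr with rfl | ⟨n, hn, rfl⟩
    · exact ⟨0, by omega, by simp⟩
    · exact ⟨n, (hT n hn).2.1, rfl⟩)
  rw [hcard, Nat.add_sub_cancel] at h1
  calc T.card * (T.card + 1) = (T.card + 1) * T.card := by ring
    _ ≤ 1 * ((T' - T').card - 1) := h1
    _ ≤ 2 * N := by omega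

/-- rationals of bounded height -/
theorem count_height (H : ℕ) (T : Finset ℚ)
    (hT : ∀ r ∈ T, |r.num| ≤ H ∧ r.den ≤ H ∧ SE r) : T.card ^ 2 ≤ 16 * H ^ 3 := by
  classical
  set F : ℕ → Finset ℚ := fun b => T.filter (fun r => r.den = b) with hF
  have hsum : T.card = ∑ b ∈ Finset.Icc 1 H, (F b).card := by
    apply Finset.card_eq_sum_card_fiberwise
    intro r hr
    rw [Finset.mem_coe, Finset.mem_Icc]
    exact ⟨r.den_pos, (hT r hr).2.1⟩
  have hb : ∀ b ∈ Finset.Icc 1 H, (F b).card ^ 2 ≤ 8 * H + (F b).card := by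
    intro b hb
    rw [Finset.mem_Icc] at hb
    have h1 := count_SE (F b) (by
      intro r hr
      exact (hT r (Finset.mem_filter.mp hr).1).2.2)
    have h2 := card_sub_scaled b H (F b) (by
      intro r hr
      obtain ⟨hr1, hr2⟩ := Finset.mem_filter.mp hr
      refine ⟨r.num, (hT r hr1).1, ?_⟩
      rw [← hr2]
      exact (Rat.num_div_den r).symm)
    have h3 : (F b).card ^ 2 = (F b).card * ((F b).card - 1) + (F b).card := by
      rcases Nat.eq_zero_or_pos (F b).card with h | h
      · rw [h]; rfl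
      · obtain ⟨c, hc⟩ : ∃ c, (F b).card = c + 1 := ⟨(F b).card - 1, by omega⟩
        rw [hc, Nat.add_sub_cancel]; ring
    rw [h3]
    omega
  have hcs : T.card ^ 2 ≤ H * (8 * H * H + T.card) := by
    have h1 := sq_sum_le_card_mul_sum_sq (s := Finset.Icc 1 H) (f := fun b => (F b).card)
    rw [← hsum, Nat.card_Icc, Nat.add_sub_cancel] at h1
    refine h1.trans (Nat.mul_le_mul_left H ?_)
    calc ∑ b ∈ Finset.Icc 1 H, (F b).card ^ 2 ≤ ∑ b ∈ Finset.Icc 1 H, (8 * H + (F b).card) :=
          Finset.sum_le_sum hb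
      _ = 8 * H * H + T.card := by
          rw [Finset.sum_add_distrib, ← hsum, Finset.sum_const, Nat.card_Icc, Nat.add_sub_cancel,
            smul_eq_mul]
          ring
  rcases Nat.eq_zero_or_pos H with hH | hH
  · subst hH
    have : T.card = 0 := by
      rw [hsum]; simp
    rw [this]; simp
  · by_contra hc
    rw [not_le] at hc
    have h1 : T.card < 2 * H := by
      by_contra h2
      rw [not_lt] at h2
      nlinarith
    have h2 : T.card ^ 2 < (2 * H) ^ 2 := Nat.pow_lt_pow_left h1 (by norm_num)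
    have h3 : H ^ 2 ≤ H ^ 3 := Nat.pow_le_pow_right hH (by norm_num)
    have h4 : (2 * H) ^ 2 = 4 * H ^ 2 := by ring
    omega

end Pool.Agent.W5h65.EE
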