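import Mathlib
import Pool.Agent.W5h65.EE.Main
import Pool.Agent.H297R2.InBakerThm

set_option autoImplicit false

namespace Pool.Agent.W5h65.EE

open Module Polynomial
open Pool.Agent.H301R2.SSE (QB mem_QB Lt Lt_log)
open Pool.Agent.H340R2.LW (transcendental_exp_one_complex)

/-- polynomials with algebraic coefficients, algebraic values -/
theorem poly_alg_QB (N k : ℕ) (P : Fin k → QB[X]) (hP : LinearIndependent ℚ P)
    (hN : ∀ i, (P i).natDegree ≤ N) (h0 : ∀ i, (P i).coeff 0 = 0)
    (hA : ∀ i, IsAlgebraic ℚ (Complex.exp (aeval (Complex.exp 1) (P i)))) :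
    2 * k ≤ N + 2 := by
  refine poly_Lt N k P ?_ hN h0 (fun i => Lt_log (hA i))
  have hinj : Function.Injective (aeval (Complex.exp 1) : QB[X] →ₐ[QB] ℂ) :=
    transcendental_iff_injective.mp (transc_QB transcendental_exp_one_complex)
  have hli : LinearIndependent ℚ (fun i => aeval (Complex.exp 1) (P i)) := by
    rw [Fintype.linearIndependent_iff] at hP ⊢
    intro g hg
    apply hP g
    apply hinj
    rw [map_zero, ← hg, map_sum]
    apply Finset.sum_congr rfl
    intro i _
    have h1 : g i • P i = C (algebraMap ℚ QB (g i)) * P i := by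
      rw [← smul_eq_C_mul, algebraMap_smul]
    rw [h1, map_mul, aeval_C, Rat.smul_def]
    rfl
  rw [Fintype.linearIndependent_iff]
  intro c hc
  have hb := Pool.Agent.H297R2.baker_inhom (fun i => aeval (Complex.exp 1) (P i)) hA hli 0
    isAlgebraic_zero (fun i => (c i : ℂ)) (fun i => mem_QB.mp (c i).2) (by
      rw [zero_add]
      have h2 := congrArg (aeval (Complex.exp 1) : QB[X] →ₐ[QB] ℂ) hc
      rw [map_zero, map_sum] at h2
      rw [← h2]
      apply Finset.sum_congr rfl
      intro i _
      rw [map_smul, Algebra.smul_def]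
      rfl)
  intro i
  exact Subtype.ext (hb.2 i)

end Pool.Agent.W5h65.EE
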